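import Mathlib

set_option autoImplicit false

namespace Pool.Agent.Helper36.Local

variable {Ω : Type} [Fintype Ω] (inv : Ω → Ω)

/-- injective numbering of tuples -/
noncomputable def rk {n : ℕ} (f : Fin n → Ω) : ℕ := by
  classical exact (Fintype.equivFin (Fin n → Ω) f).val

theorem rk_inj {n : ℕ} {f g : Fin n → Ω} (h : rk f = rk g) : f = g := by
  classical
  unfold rk at h
  exact (Fintype.equivFin (Fin n → Ω)).injective (Fin.ext h)

/-- number of tuples -/
noncomputable def NB (Ω : Type) [Fintype Ω] (n : ℕ) : ℕ := by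
  classical exact Fintype.card (Fin n → Ω)

theorem rk_lt {n : ℕ} (f : Fin n → Ω) : rk f < NB Ω n := by
  classical
  unfold rk NB
  exact (Fintype.equivFin (Fin n → Ω) f).2

/-- the name of the position j read in direction s -/
def nm (z : ℤ → Ω) (n : ℕ) (j : ℤ) (s : Bool) : Fin n → Ω :=
  fun k => if s = true then z (j + k) else inv (z (j - 1 - k))

/-- a marker: a local minimum of the rank of the name -/
def Mk (N : ℕ) (z : ℤ → Ω) (j : ℤ) (s : Bool) : Prop :=
  ∀ (j' : ℤ) (s' : Bool), |j' - j| ≤ 5 * (N : ℤ) →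
    rk (nm inv z (5 * N) j s) ≤ rk (nm inv z (5 * N) j' s')

/-- j is a marker position -/
def IsM (N : ℕ) (z : ℤ → Ω) (j : ℤ) : Prop := ∃ s, Mk inv N z j s

/-- two consecutive marker positions -/
def Gap (N : ℕ) (z : ℤ → Ω) (p q : ℤ) : Prop :=
  p < q ∧ IsM inv N z p ∧ IsM inv N z q ∧ ∀ j, p < j → j < q → ¬ IsM inv N z j

/-- orientation of the factor between p and q -/
def Ori (z : ℤ → Ω) (p q : ℤ) (o : Bool) : Prop :=
  if o = true then rk (nm inv z (q - p).toNat p true) < rk (nm inv z (q - p).toNat q false)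
  else rk (nm inv z (q - p).toNat q false) < rk (nm inv z (q - p).toNat p true)

/-- the position i is close to a diverging gap of orientation o -/
def P2 (N : ℕ) (z : ℤ → Ω) (i : ℤ) (o : Bool) : Prop :=
  ∃ p q, Gap inv N z p q ∧ q - p ≤ 5 * (N : ℤ) ∧ Mk inv N z p false ∧ Mk inv N z q true ∧
    p - 2 * (N : ℤ) ≤ i ∧ i ≤ q + 2 * (N : ℤ) ∧ Ori inv z p q o

/-- the position i is close to a marker of direction s and not close to a diverging gap -/
def P1 (N : ℕ) (z : ℤ → Ω) (i : ℤ) (s : Bool) : Prop :=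
  (∀ o, ¬ P2 inv N z i o) ∧ ∃ j, |i - j| ≤ (N : ℤ) ∧ Mk inv N z j s

/-- the position i is inside a gap of orientation o and far from the ends -/
def P3 (N : ℕ) (z : ℤ → Ω) (i : ℤ) (o : Bool) : Prop :=
  ∃ p q, Gap inv N z p q ∧ p + (N : ℤ) < i ∧ i + (N : ℤ) < q ∧ Ori inv z p q o

/-- the three kinds of states -/
def PP (N : ℕ) (z : ℤ → Ω) (i : ℤ) : Fin 3 → Bool → Prop :=
  ![P1 inv N z i, P2 inv N z i, P3 inv N z i]

/-- reducedness on an interval -/
def Red (z : ℤ → Ω) (a b : ℤ) : Prop :=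
  (∀ i, a ≤ i → i < b → z i ≠ inv (z i)) ∧ (∀ i, a ≤ i → i + 1 < b → z (i + 1) ≠ inv (z i))

theorem Red.mono {z : ℤ → Ω} {a b a' b' : ℤ} (h : Red inv z a b) (ha : a ≤ a') (hb : b' ≤ b) :
    Red inv z a' b' :=
  ⟨fun i h1 h2 => h.1 i (by omega) (by omega), fun i h1 h2 => h.2 i (by omega) (by omega)⟩

variable {inv}

theorem exists_mk_aux (N : ℕ) (z : ℤ → Ω) (r : ℕ) :
    ∀ (j : ℤ) (s : Bool), rk (nm inv z (5 * N) j s) ≤ r →
      ∃ (j' : ℤ) (s' : Bool), |j' - j| ≤ 5 * (N : ℤ) * r ∧ Mk inv N z j' s' := by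
  induction r with
  | zero =>
    intro j s h
    refine ⟨j, s, by simp, ?_⟩
    intro j' s' _
    omega
  | succ r ih =>
    intro j s h
    by_cases hM : Mk inv N z j s
    · exact ⟨j, s, by simp, hM⟩
    · unfold Mk at hM
      push Not at hM
      obtain ⟨j'', s'', h1, h2⟩ := hM
      obtain ⟨j', s', h3, h4⟩ := ih j'' s'' (by omega)
      refine ⟨j', s', ?_, h4⟩
      have h5 : |j' - j| ≤ |j' - j''| + |j'' - j| := by
        have := abs_add_le (j' - j'') (j'' - j)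
        simpa using this
      push_cast
      nlinarith

theorem exists_mk (N : ℕ) (z : ℤ → Ω) (j : ℤ) :
    ∃ (j' : ℤ), |j' - j| ≤ 5 * (N : ℤ) * (NB Ω (5 * N)) ∧ IsM inv N z j' := by
  obtain ⟨j', s', h1, h2⟩ := exists_mk_aux (inv := inv) N z (NB Ω (5 * N)) j true (rk_lt _).le
  exact ⟨j', h1, s', h2⟩

theorem not_self_inv (hinv : ∀ x, inv (inv x) = x) {z : ℤ → Ω} {a b : ℤ} (h : Red inv z a b)
    (p : ℤ) (n : ℕ) (hn : 1 ≤ n) (ha : a ≤ p) (hb : p + n ≤ b) :
    ¬ ∀ k : ℕ, k < n → z (p + k) = inv (z (p + n - 1 - k)) := by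
  intro hk
  rcases Nat.even_or_odd' n with ⟨m, hm | hm⟩
  · have h1 := hk (m - 1) (by omega)
    have e1 : p + (n : ℤ) - 1 - ((m - 1 : ℕ) : ℤ) = p + ((m - 1 : ℕ) : ℤ) + 1 := by omega
    rw [e1] at h1
    apply h.2 (p + ((m - 1 : ℕ) : ℤ)) (by omega) (by omega)
    rw [h1, hinv]
  · have h1 := hk m (by omega)
    have e1 : p + (n : ℤ) - 1 - (m : ℤ) = p + (m : ℤ) := by omega
    rw [e1] at h1
    exact h.1 (p + (m : ℤ)) (by omega) (by omega) h1

theorem mk_eq {N : ℕ} {z : ℤ → Ω} {j j' : ℤ} {s s' : Bool} (h : Mk inv N z j s)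
    (h' : Mk inv N z j' s') (hd : |j' - j| ≤ 5 * (N : ℤ)) :
    nm inv z (5 * N) j s = nm inv z (5 * N) j' s' := by
  apply rk_inj
  apply le_antisymm
  · exact h j' s' hd
  · apply h' j s
    rw [abs_sub_comm]; exact hd

theorem no_conv (hinv : ∀ x, inv (inv x) = x) {N : ℕ} (hN : 1 ≤ N) {z : ℤ → Ω} {j j' : ℤ}
    (h : Mk inv N z j true) (h' : Mk inv N z j' false) (h1 : j ≤ j') (h2 : j' ≤ j + 5 * (N : ℤ))
    (hr : Red inv z (j - 1) (j' + 1)) : False := by
  have he := mk_eq h h' (by rw [abs_of_nonneg (by omega)]; omega)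
  rcases eq_or_lt_of_le h1 with h3 | h3
  · subst h3
    have := congrFun he ⟨0, by omega⟩
    simp only [nm, if_true, CharP.cast_eq_zero, add_zero, sub_zero] at this
    simp at this
    have h4 := hr.2 (j - 1) (by omega) (by omega)
    rw [sub_add_cancel] at h4
    exact h4 this
  · apply not_self_inv hinv hr j (j' - j).toNat (by omega) (by omega) (by omega)
    intro k hk
    have := congrFun he ⟨k, by omega⟩
    simp only [nm, if_true] at this
    simp at this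
    rw [this]
    congr 2
    omega

theorem ori_unique {z : ℤ → Ω} {p q : ℤ} {o o' : Bool} (h : Ori inv z p q o)
    (h' : Ori inv z p q o') : o = o' := by
  cases o <;> cases o' <;> simp [Ori] at h h' ⊢
  · omega
  · omega

theorem ori_exists (hinv : ∀ x, inv (inv x) = x) {z : ℤ → Ω} {p q : ℤ} (hpq : p < q)
    (hr : Red inv z p q) : ∃ o, Ori inv z p q o := by
  rcases lt_trichotomy (rk (nm inv z (q - p).toNat p true)) (rk (nm inv z (q - p).toNat q false))
    with h | h | h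
  · exact ⟨true, by simp [Ori, h]⟩
  · exfalso
    have he := rk_inj h
    apply not_self_inv hinv hr p (q - p).toNat (by omega) (by omega) (by omega)
    intro k hk
    have := congrFun he ⟨k, hk⟩
    simp only [nm, if_true] at this
    simp at this
    rw [this]
    congr 2
    omega
  · exact ⟨false, by simp [Ori, h]⟩

theorem exists_div {N : ℕ} {z : ℤ → Ω} {p₀ q₀ : ℤ} (hp : Mk inv N z p₀ false)
    (hq : Mk inv N z q₀ true) (h : p₀ < q₀) :
    ∃ p q, p₀ ≤ p ∧ q ≤ q₀ ∧ Gap inv N z p q ∧ Mk inv N z p false ∧ Mk inv N z q true := by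
  obtain ⟨p, ⟨hp1, hp2, hp3⟩, hpmax⟩ := Int.exists_greatest_of_bdd
    (P := fun j => p₀ ≤ j ∧ j < q₀ ∧ Mk inv N z j false)
    ⟨q₀, fun z hz => by omega⟩ ⟨p₀, le_refl _, h, hp⟩
  obtain ⟨q, ⟨hq1, hq2, hq3⟩, hqmin⟩ := Int.exists_least_of_bdd
    (P := fun j => p < j ∧ j ≤ q₀ ∧ IsM inv N z j)
    ⟨p, fun z hz => by omega⟩ ⟨q₀, hp2, le_refl _, true, hq⟩
  refine ⟨p, q, hp1, hq2, ⟨hq1, ⟨false, hp3⟩, hq3, ?_⟩, hp3, ?_⟩
  · intro j hj1 hj2 hj3
    have := hqmin j ⟨hj1, by omega, hj3⟩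
    omega
  · rcases eq_or_lt_of_le hq2 with h1 | h1
    · rw [h1]; exact hq
    · obtain ⟨s, hs⟩ := hq3
      cases s
      · have := hpmax q ⟨by omega, h1, hs⟩
        omega
      · exact hs

theorem gap_unique_left {N : ℕ} {z : ℤ → Ω} {p q p' q' : ℤ} (h : Gap inv N z p q)
    (h' : Gap inv N z p' q') (hp : p = p') : q = q' := by
  subst hp
  rcases lt_trichotomy q q' with h1 | h1 | h1
  · exact absurd h.2.2.1 (h'.2.2.2 q h.1 h1)
  · exact h1
  · exact absurd h'.2.2.1 (h.2.2.2 q' h'.1 h1)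

theorem cons2_aux (hinv : ∀ x, inv (inv x) = x) {N : ℕ} (hN : 1 ≤ N) {z : ℤ → Ω} {i i' : ℤ}
    (hr : Red inv z (i - 10 * N) (i + 10 * N)) (hi : |i - i'| ≤ (N : ℤ)) {p q p' : ℤ}
    (hg : Gap inv N z p q) (hq : Mk inv N z q true)
    (h2 : i ≤ q + 2 * (N : ℤ)) (hp' : Mk inv N z p' false)
    (h1' : p' - 2 * (N : ℤ) ≤ i') : ¬ p < p' := by
  intro hlt
  rw [abs_le] at hi
  have h3 : q ≤ p' := by
    by_contra h4
    push Not at h4
    exact hg.2.2.2 p' hlt h4 ⟨false, hp'⟩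
  exact no_conv hinv hN hq hp' h3 (by omega) (hr.mono inv (by omega) (by omega))

theorem cons2 (hinv : ∀ x, inv (inv x) = x) {N : ℕ} (hN : 1 ≤ N) {z : ℤ → Ω} {i i' : ℤ}
    (hr : Red inv z (i - 11 * N) (i + 11 * N)) (hi : |i - i'| ≤ (N : ℤ)) {o o' : Bool}
    (h : P2 inv N z i o) (h' : P2 inv N z i' o') : o = o' := by
  obtain ⟨p, q, hg, h1, hp, hq, h2, h3, ho⟩ := h
  obtain ⟨p', q', hg', h1', hp', hq', h2', h3', ho'⟩ := h'
  have hi2 := abs_le.mp hi
  have e1 : ¬ p < p' := cons2_aux hinv hN (hr.mono inv (by omega) (by omega)) hi hg hq h3 hp' h2'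
  have e2 : ¬ p' < p := cons2_aux hinv hN (i := i') (i' := i)
    (hr.mono inv (by omega) (by omega)) (by rw [abs_sub_comm]; exact hi) hg' hq' h3' hp h2
  have e3 : p = p' := by omega
  have e4 := gap_unique_left hg hg' e3
  subst e3
  subst e4
  exact ori_unique ho ho'

theorem cons1_aux (hinv : ∀ x, inv (inv x) = x) {N : ℕ} (hN : 1 ≤ N) {z : ℤ → Ω} {i : ℤ}
    (hr : Red inv z (i - 11 * N) (i + 11 * N))
    (hno : ∀ o, ¬ P2 inv N z i o) {j j' : ℤ} (hj : Mk inv N z j false) (hj' : Mk inv N z j' true)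
    (h1 : |i - j| ≤ 2 * (N : ℤ)) (h2 : |i - j'| ≤ 2 * (N : ℤ)) : False := by
  rw [abs_le] at h1 h2
  have hlt : j < j' := by
    by_contra hle
    push Not at hle
    exact no_conv hinv hN hj' hj hle (by omega) (hr.mono inv (by omega) (by omega))
  obtain ⟨p, q, hp1, hq1, hg, hp, hq⟩ := exists_div hj hj' hlt
  have hpq := hg.1
  obtain ⟨o, ho⟩ := ori_exists hinv hpq (hr.mono inv (by omega) (by omega))
  exact hno o ⟨p, q, hg, by omega, hp, hq, by omega, by omega, ho⟩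

theorem cons1 (hinv : ∀ x, inv (inv x) = x) {N : ℕ} (hN : 1 ≤ N) {z : ℤ → Ω} {i i' : ℤ}
    (hr : Red inv z (i - 11 * N) (i + 11 * N)) (hi : |i - i'| ≤ (N : ℤ)) {o o' : Bool}
    (h : P1 inv N z i o) (h' : P1 inv N z i' o') : o = o' := by
  obtain ⟨hno, j, hj, hjM⟩ := h
  obtain ⟨hno', j', hj', hjM'⟩ := h'
  rw [abs_le] at hi hj hj'
  cases o <;> cases o'
  · rfl
  · exfalso
    exact cons1_aux hinv hN hr hno hjM hjM' (by rw [abs_le]; omega) (by rw [abs_le]; omega)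
  · exfalso
    exact cons1_aux hinv hN hr hno hjM' hjM (by rw [abs_le]; omega) (by rw [abs_le]; omega)
  · rfl

theorem cons3 {N : ℕ} {z : ℤ → Ω} {i i' : ℤ}
    (hi : |i - i'| ≤ (N : ℤ)) {o o' : Bool}
    (h : P3 inv N z i o) (h' : P3 inv N z i' o') : o = o' := by
  obtain ⟨p, q, hg, h1, h2, ho⟩ := h
  obtain ⟨p', q', hg', h1', h2', ho'⟩ := h'
  rw [abs_le] at hi
  have e1 : ¬ p < p' := fun hlt => hg.2.2.2 p' hlt (by omega) hg'.2.1
  have e2 : ¬ p' < p := fun hlt => hg'.2.2.2 p hlt (by omega) hg.2.1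
  have e3 : p = p' := by omega
  have e4 := gap_unique_left hg hg' e3
  subst e3
  subst e4
  exact ori_unique ho ho'

theorem cons (hinv : ∀ x, inv (inv x) = x) {N : ℕ} (hN : 1 ≤ N) {z : ℤ → Ω} {i i' : ℤ}
    (hr : Red inv z (i - 11 * N) (i + 11 * N)) (hi : |i - i'| ≤ (N : ℤ)) {t : Fin 3} {o o' : Bool}
    (h : PP inv N z i t o) (h' : PP inv N z i' t o') : o = o' := by
  fin_cases t
  · exact cons1 hinv hN hr hi h h'
  · exact cons2 hinv hN hr hi h h'
  · exact cons3 hi h h'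

/-- radius bound for gaps -/
noncomputable def KK (Ω : Type) [Fintype Ω] (N : ℕ) : ℤ := 5 * (N : ℤ) * (NB Ω (5 * N))

theorem KK_nonneg (N : ℕ) : 0 ≤ KK Ω N := by unfold KK; positivity

theorem gap_le {N : ℕ} {z : ℤ → Ω} {p q : ℤ} (hg : Gap inv N z p q) :
    q - p ≤ 2 * KK Ω N + 2 := by
  by_contra hlt
  push Not at hlt
  obtain ⟨j, hj, hjM⟩ := exists_mk (inv := inv) N z (p + KK Ω N + 1)
  have hj' : |j - (p + KK Ω N + 1)| ≤ KK Ω N := hj
  rw [abs_le] at hj'
  exact hg.2.2.2 j (by omega) (by omega) hjM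

/-- existence of a state -/
theorem state_exists (hinv : ∀ x, inv (inv x) = x) {N : ℕ} {z : ℤ → Ω} {i : ℤ}
    (hr : Red inv z (i - (2 * KK Ω N + 2 * N + 10)) (i + (2 * KK Ω N + 2 * N + 10))) :
    ∃ t o, PP inv N z i t o := by
  by_cases h2 : ∃ o, P2 inv N z i o
  · obtain ⟨o, ho⟩ := h2
    exact ⟨1, o, ho⟩
  · push Not at h2
    by_cases h1 : ∃ s j, |i - j| ≤ (N : ℤ) ∧ Mk inv N z j s
    · obtain ⟨s, j, h3, h4⟩ := h1
      exact ⟨0, s, h2, j, h3, h4⟩
    · push Not at h1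
      have hfar : ∀ j, IsM inv N z j → (N : ℤ) < |i - j| := by
        intro j ⟨s, hs⟩
        by_contra hle
        push Not at hle
        exact h1 s j hle hs
      obtain ⟨l, hl, hlM⟩ := exists_mk (inv := inv) N z (i - KK Ω N - 1)
      obtain ⟨r, hrr, hrM⟩ := exists_mk (inv := inv) N z (i + KK Ω N + 1)
      have hl' : |l - (i - KK Ω N - 1)| ≤ KK Ω N := hl
      have hr' : |r - (i + KK Ω N + 1)| ≤ KK Ω N := hrr
      rw [abs_le] at hl' hr'
      obtain ⟨p, ⟨hp1, hp2⟩, hpmax⟩ := Int.exists_greatest_of_bdd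
        (P := fun j => j < i ∧ IsM inv N z j)
        ⟨i, fun z hz => by omega⟩ ⟨l, by omega, hlM⟩
      obtain ⟨q, ⟨hq1, hq2⟩, hqmin⟩ := Int.exists_least_of_bdd
        (P := fun j => i < j ∧ IsM inv N z j)
        ⟨i, fun z hz => by omega⟩ ⟨r, by omega, hrM⟩
      have hp3 := hfar p hp2
      have hq3 := hfar q hq2
      have hgap : Gap inv N z p q := by
        refine ⟨by omega, hp2, hq2, ?_⟩
        intro j hj1 hj2 hj3
        rcases lt_trichotomy j i with h | h | h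
        · have := hpmax j ⟨h, hj3⟩; omega
        · have := hfar j hj3
          rw [h] at this
          simp at this
          omega
        · have := hqmin j ⟨h, hj3⟩; omega
      have hp4 := hpmax l ⟨by omega, hlM⟩
      have hq4 := hqmin r ⟨by omega, hrM⟩
      rw [abs_of_pos (by omega)] at hp3
      rw [abs_of_neg (by omega)] at hq3
      obtain ⟨o, ho⟩ := ori_exists hinv hgap.1 (hr.mono inv (by omega) (by omega))
      exact ⟨2, o, p, q, hgap, by omega, by omega, ho⟩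

/-! ### behaviour under reversal -/

theorem nm_flip (hinv : ∀ x, inv (inv x) = x) {z z' : ℤ → Ω} {L : ℤ}
    (hz : ∀ k, z' k = inv (z (L - 1 - k))) (n : ℕ) (j : ℤ) (s : Bool) :
    nm inv z' n j s = nm inv z n (L - j) (!s) := by
  funext k
  cases s
  · simp only [nm, Bool.not_false, if_true, Bool.false_eq_true, if_false]
    rw [hz, hinv]
    congr 1
    ring
  · simp only [nm, Bool.not_true, if_true, Bool.false_eq_true, if_false]
    rw [hz]
    congr 2
    ring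

theorem mk_flip (hinv : ∀ x, inv (inv x) = x) {N : ℕ} {z z' : ℤ → Ω} {L : ℤ}
    (hz : ∀ k, z' k = inv (z (L - 1 - k))) {j : ℤ} {s : Bool} :
    Mk inv N z' j s ↔ Mk inv N z (L - j) (!s) := by
  unfold Mk
  constructor
  · intro h j' s' hj'
    have := h (L - j') (!s') (by rw [abs_le] at hj' ⊢; omega)
    rw [nm_flip hinv hz, nm_flip hinv hz] at this
    simpa using this
  · intro h j' s' hj'
    rw [nm_flip hinv hz, nm_flip hinv hz]
    exact h (L - j') (!s') (by rw [abs_le] at hj' ⊢; omega)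

theorem isM_flip (hinv : ∀ x, inv (inv x) = x) {N : ℕ} {z z' : ℤ → Ω} {L : ℤ}
    (hz : ∀ k, z' k = inv (z (L - 1 - k))) {j : ℤ} :
    IsM inv N z' j ↔ IsM inv N z (L - j) := by
  constructor
  · rintro ⟨s, hs⟩
    exact ⟨!s, (mk_flip hinv hz).mp hs⟩
  · rintro ⟨s, hs⟩
    refine ⟨!s, (mk_flip hinv hz).mpr ?_⟩
    simpa using hs

theorem gap_flip (hinv : ∀ x, inv (inv x) = x) {N : ℕ} {z z' : ℤ → Ω} {L : ℤ}
    (hz : ∀ k, z' k = inv (z (L - 1 - k))) {p q : ℤ} (h : Gap inv N z' p q) :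
    Gap inv N z (L - q) (L - p) := by
  obtain ⟨h1, h2, h3, h4⟩ := h
  refine ⟨by omega, (isM_flip hinv hz).mp h3, (isM_flip hinv hz).mp h2, ?_⟩
  intro j hj1 hj2 hj3
  refine h4 (L - j) (by omega) (by omega) ((isM_flip hinv hz).mpr ?_)
  simpa using hj3

theorem ori_flip (hinv : ∀ x, inv (inv x) = x) {z z' : ℤ → Ω} {L : ℤ}
    (hz : ∀ k, z' k = inv (z (L - 1 - k))) {p q : ℤ} {o : Bool} (h : Ori inv z' p q o) :
    Ori inv z (L - q) (L - p) (!o) := by
  have e : (L - p - (L - q)) = q - p := by ring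
  unfold Ori at *
  rw [e]
  cases o
  · simp only [Bool.not_false, if_true, Bool.false_eq_true, if_false] at h ⊢
    rw [nm_flip hinv hz, nm_flip hinv hz] at h
    simpa using h
  · simp only [Bool.not_true, if_true, Bool.false_eq_true, if_false] at h ⊢
    rw [nm_flip hinv hz, nm_flip hinv hz] at h
    simpa using h

theorem P2_flip (hinv : ∀ x, inv (inv x) = x) {N : ℕ} {z z' : ℤ → Ω} {L : ℤ}
    (hz : ∀ k, z' k = inv (z (L - 1 - k))) {i : ℤ} {o : Bool} (h : P2 inv N z' i o) :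
    P2 inv N z (L - i) (!o) := by
  obtain ⟨p, q, hg, h1, hp, hq, h2, h3, ho⟩ := h
  refine ⟨L - q, L - p, gap_flip hinv hz hg, by omega, ?_, ?_, by omega, by omega,
    ori_flip hinv hz ho⟩
  · exact (mk_flip hinv hz).mp hq
  · exact (mk_flip hinv hz).mp hp

theorem flip_symm (hinv : ∀ x, inv (inv x) = x) {z z' : ℤ → Ω} {L : ℤ}
    (hz : ∀ k, z' k = inv (z (L - 1 - k))) : ∀ k, z k = inv (z' (L - 1 - k)) := by
  intro k
  rw [hz, hinv]
  congr 1
  ring

theorem P1_flip (hinv : ∀ x, inv (inv x) = x) {N : ℕ} {z z' : ℤ → Ω} {L : ℤ}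
    (hz : ∀ k, z' k = inv (z (L - 1 - k))) {i : ℤ} {o : Bool} (h : P1 inv N z' i o) :
    P1 inv N z (L - i) (!o) := by
  obtain ⟨hno, j, hj, hjM⟩ := h
  refine ⟨?_, L - j, ?_, (mk_flip hinv hz).mp hjM⟩
  · intro o' ho'
    have := P2_flip hinv (flip_symm hinv hz) ho'
    rw [sub_sub_cancel] at this
    exact hno _ this
  · rw [abs_le] at hj ⊢
    omega

theorem P3_flip (hinv : ∀ x, inv (inv x) = x) {N : ℕ} {z z' : ℤ → Ω} {L : ℤ}
    (hz : ∀ k, z' k = inv (z (L - 1 - k))) {i : ℤ} {o : Bool} (h : P3 inv N z' i o) :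
    P3 inv N z (L - i) (!o) := by
  obtain ⟨p, q, hg, h1, h2, ho⟩ := h
  exact ⟨L - q, L - p, gap_flip hinv hz hg, by omega, by omega, ori_flip hinv hz ho⟩

theorem PP_flip (hinv : ∀ x, inv (inv x) = x) {N : ℕ} {z z' : ℤ → Ω} {L : ℤ}
    (hz : ∀ k, z' k = inv (z (L - 1 - k))) {i : ℤ} {t : Fin 3} {o : Bool}
    (h : PP inv N z' i t o) : PP inv N z (L - i) t (!o) := by
  fin_cases t
  · exact P1_flip hinv hz h
  · exact P2_flip hinv hz h
  · exact P3_flip hinv hz h

/-! ### locality -/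

/-- w agrees with z, shifted by a, on an interval -/
def Agree (z w : ℤ → Ω) (a lo hi : ℤ) : Prop := ∀ k, lo ≤ k → k < hi → w (k + a) = z k

omit [Fintype Ω] in
theorem Agree.mono {z w : ℤ → Ω} {a lo hi lo' hi' : ℤ} (h : Agree z w a lo hi) (h1 : lo ≤ lo')
    (h2 : hi' ≤ hi) : Agree z w a lo' hi' := fun k hk1 hk2 => h k (by omega) (by omega)

omit [Fintype Ω] in
theorem Agree.symm {z w : ℤ → Ω} {a lo hi : ℤ} (h : Agree z w a lo hi) :
    Agree w z (-a) (lo + a) (hi + a) := by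
  intro k hk1 hk2
  have := h (k - a) (by omega) (by omega)
  rw [sub_add_cancel] at this
  rw [← sub_eq_add_neg]
  exact this.symm

omit [Fintype Ω] in
theorem nm_congr {z w : ℤ → Ω} {a lo hi : ℤ} (h : Agree z w a lo hi) {n : ℕ} {j : ℤ}
    (h1 : lo ≤ j - n) (h2 : j + n ≤ hi) (s : Bool) :
    nm inv w n (j + a) s = nm inv z n j s := by
  funext k
  have hk := k.2
  cases s
  · simp only [nm, Bool.false_eq_true, if_false]
    rw [← h (j - 1 - k) (by omega) (by omega)]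
    congr 2
    ring
  · simp only [nm, if_true]
    rw [← h (j + k) (by omega) (by omega)]
    congr 1
    ring

theorem mk_congr {N : ℕ} {z w : ℤ → Ω} {a lo hi : ℤ} (h : Agree z w a lo hi) {j : ℤ} {s : Bool}
    (h1 : lo ≤ j - 10 * N) (h2 : j + 10 * N ≤ hi) (hM : Mk inv N z j s) :
    Mk inv N w (j + a) s := by
  intro j' s' hj'
  rw [abs_le] at hj'
  have := hM (j' - a) s' (by rw [abs_le]; omega)
  rw [nm_congr h (by push_cast; omega) (by push_cast; omega)]
  have e := nm_congr (inv := inv) h (n := 5 * N) (j := j' - a) (by push_cast; omega)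
    (by push_cast; omega) s'
  rw [sub_add_cancel] at e
  rw [e]
  exact this

theorem isM_congr {N : ℕ} {z w : ℤ → Ω} {a lo hi : ℤ} (h : Agree z w a lo hi) {j : ℤ}
    (h1 : lo ≤ j - 10 * N) (h2 : j + 10 * N ≤ hi) :
    IsM inv N w (j + a) ↔ IsM inv N z j := by
  constructor
  · rintro ⟨s, hs⟩
    have := mk_congr h.symm (by omega) (by omega) hs
    rw [add_neg_cancel_right] at this
    exact ⟨s, this⟩
  · rintro ⟨s, hs⟩
    exact ⟨s, mk_congr h h1 h2 hs⟩

theorem gap_congr {N : ℕ} {z w : ℤ → Ω} {a lo hi : ℤ} (h : Agree z w a lo hi) {p q : ℤ}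
    (h1 : lo ≤ p - 10 * N) (h2 : q + 10 * N ≤ hi) (hg : Gap inv N z p q) :
    Gap inv N w (p + a) (q + a) := by
  obtain ⟨h3, h4, h5, h6⟩ := hg
  refine ⟨by omega, (isM_congr h (by omega) (by omega)).mpr h4,
    (isM_congr h (by omega) (by omega)).mpr h5, ?_⟩
  intro j hj1 hj2 hj3
  apply h6 (j - a) (by omega) (by omega)
  rw [← isM_congr h (by omega) (by omega), sub_add_cancel]
  exact hj3

theorem ori_congr {z w : ℤ → Ω} {a lo hi : ℤ} (h : Agree z w a lo hi) {p q : ℤ} (hpq : p < q)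
    (h1 : lo ≤ p - (q - p)) (h2 : q + (q - p) ≤ hi) {o : Bool} (ho : Ori inv z p q o) :
    Ori inv w (p + a) (q + a) o := by
  unfold Ori at *
  have e : q + a - (p + a) = q - p := by ring
  rw [e, nm_congr h (by omega) (by omega), nm_congr h (by omega) (by omega)]
  exact ho

theorem P2_congr {N : ℕ} {z w : ℤ → Ω} {a lo hi : ℤ} (h : Agree z w a lo hi) {i : ℤ} {o : Bool}
    (h1 : lo ≤ i - 30 * N) (h2 : i + 30 * N ≤ hi) (hP : P2 inv N z i o) :
    P2 inv N w (i + a) o := by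
  obtain ⟨p, q, hg, h3, hp, hq, h4, h5, ho⟩ := hP
  have := hg.1
  exact ⟨p + a, q + a, gap_congr h (by omega) (by omega) hg, by omega,
    mk_congr h (by omega) (by omega) hp, mk_congr h (by omega) (by omega) hq, by omega, by omega,
    ori_congr h hg.1 (by omega) (by omega) ho⟩

theorem P1_congr {N : ℕ} {z w : ℤ → Ω} {a lo hi : ℤ} (h : Agree z w a lo hi) {i : ℤ} {o : Bool}
    (h1 : lo ≤ i - 30 * N) (h2 : i + 30 * N ≤ hi) (hP : P1 inv N z i o) :
    P1 inv N w (i + a) o := by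
  obtain ⟨hno, j, hj, hjM⟩ := hP
  rw [abs_le] at hj
  refine ⟨?_, j + a, ?_, mk_congr h (by omega) (by omega) hjM⟩
  · intro o' ho'
    have := P2_congr h.symm (by omega) (by omega) ho'
    rw [add_neg_cancel_right] at this
    exact hno o' this
  · rw [abs_le]; omega

theorem P3_congr {N : ℕ} {z w : ℤ → Ω} {a lo hi : ℤ} (h : Agree z w a lo hi) {i : ℤ} {o : Bool}
    (h1 : lo ≤ i - (30 * N + 10 * KK Ω N + 10)) (h2 : i + (30 * N + 10 * KK Ω N + 10) ≤ hi)
    (hP : P3 inv N z i o) : P3 inv N w (i + a) o := by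
  obtain ⟨p, q, hg, h3, h4, ho⟩ := hP
  have hle := gap_le hg
  have := hg.1
  have hK := KK_nonneg (Ω := Ω) N
  exact ⟨p + a, q + a, gap_congr h (by omega) (by omega) hg, by omega, by omega,
    ori_congr h hg.1 (by omega) (by omega) ho⟩

theorem PP_congr {N : ℕ} {z w : ℤ → Ω} {a lo hi : ℤ} (h : Agree z w a lo hi) {i : ℤ}
    {t : Fin 3} {o : Bool}
    (h1 : lo ≤ i - (30 * N + 10 * KK Ω N + 10)) (h2 : i + (30 * N + 10 * KK Ω N + 10) ≤ hi)
    (hP : PP inv N z i t o) : PP inv N w (i + a) t o := by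
  have hK := KK_nonneg (Ω := Ω) N
  fin_cases t
  · exact P1_congr h (by omega) (by omega) hP
  · exact P2_congr h (by omega) (by omega) hP
  · exact P3_congr h (by omega) (by omega) hP

end Pool.Agent.Helper36.Local
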