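import Mathlib
import Pool.Agent.Helper36.Local

set_option autoImplicit false

namespace Pool.Agent.Helper36.F2Col

open Pool.Agent.Helper36.Local FreeGroup

variable {α : Type} [DecidableEq α]

/-- letters with a blank symbol -/
abbrev Lt (α : Type) := Option (α × Bool)

/-- inversion of letters -/
def iv : Lt α → Lt α := Option.map (fun g => (g.1, !g.2))

omit [DecidableEq α] in
theorem iv_iv (x : Lt α) : iv (iv x) = x := by
  cases x <;> simp [iv]

/-- the word as a sequence indexed by the integers -/
def sq (w : List (α × Bool)) : ℤ → Lt α := fun i => if 0 ≤ i then w[i.toNat]? else none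

omit [DecidableEq α] in
theorem sq_nat (w : List (α × Bool)) (n : ℕ) : sq w (n : ℤ) = w[n]? := by
  simp [sq]

omit [DecidableEq α] in
theorem sq_neg (w : List (α × Bool)) {i : ℤ} (h : i < 0) : sq w i = none := by
  simp [sq, h]

omit [DecidableEq α] in
theorem sq_ge (w : List (α × Bool)) {i : ℤ} (h : (w.length : ℤ) ≤ i) : sq w i = none := by
  unfold sq
  split_ifs
  · rw [List.getElem?_eq_none_iff]; omega
  · rfl

omit [DecidableEq α] in
theorem sq_flip (w : List (α × Bool)) (k : ℤ) :
    sq (invRev w) k = iv (sq w ((w.length : ℤ) - 1 - k)) := by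
  by_cases h0 : k < 0
  · rw [sq_neg _ h0, sq_ge w (by omega)]; rfl
  · by_cases h1 : (w.length : ℤ) ≤ k
    · rw [sq_ge (invRev w) (by rw [invRev_length]; exact h1), sq_neg w (by omega)]; rfl
    · push Not at h0 h1
      obtain ⟨n, rfl⟩ := Int.eq_ofNat_of_zero_le h0
      have hn : n < w.length := by exact_mod_cast h1
      have e : (w.length : ℤ) - 1 - (n : ℤ) = ((w.length - 1 - n : ℕ) : ℤ) := by omega
      rw [e, sq_nat, sq_nat]
      unfold invRev iv
      rw [List.getElem?_reverse (by simpa using hn), List.length_map, List.getElem?_map]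

theorem red_sq {w : List (α × Bool)} (hw : IsReduced w) : Red iv (sq w) 0 w.length := by
  constructor
  · intro i h0 h1
    obtain ⟨n, rfl⟩ := Int.eq_ofNat_of_zero_le h0
    have hn : n < w.length := by exact_mod_cast h1
    rw [sq_nat, List.getElem?_eq_getElem hn]
    simp only [iv, Option.map_some, ne_eq, Option.some.injEq]
    intro h
    have := congrArg Prod.snd h
    simp at this
  · intro i h0 h1
    obtain ⟨n, rfl⟩ := Int.eq_ofNat_of_zero_le h0
    have hn : n + 1 < w.length := by exact_mod_cast h1
    have e : (n : ℤ) + 1 = ((n + 1 : ℕ) : ℤ) := by push_cast; ring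
    rw [e, sq_nat, sq_nat, List.getElem?_eq_getElem hn, List.getElem?_eq_getElem (by omega)]
    simp only [iv, Option.map_some, ne_eq, Option.some.injEq]
    intro h
    have h1 := congrArg Prod.fst h
    have h2 := congrArg Prod.snd h
    simp only at h1 h2
    have h3 := (List.isChain_iff_getElem.mp hw) n (by omega)
    have h4 := h3 h1.symm
    rw [h2] at h4
    simp at h4

theorem suffix_aux (L : List (α × Bool)) (u : FreeGroup α) :
    ∃ t : List (α × Bool), t <:+ toWord u ∧ t <:+ toWord (mk L * u) ∧
      norm u ≤ t.length + L.length ∧ norm (mk L * u) ≤ t.length + L.length := by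
  induction L with
  | nil =>
    refine ⟨toWord u, List.suffix_rfl, ?_, by simp [FreeGroup.norm], ?_⟩
    · rw [← one_eq_mk, one_mul]
    · rw [← one_eq_mk, one_mul]; simp [FreeGroup.norm]
  | cons a L ih =>
    obtain ⟨t, h1, h2, h3, h4⟩ := ih
    set v : FreeGroup α := mk L * u with hv
    have e : (mk (a :: L) : FreeGroup α) * u = mk [a] * v := by
      rw [hv, ← mul_assoc, mul_mk]; rfl
    have e2 : toWord (mk (a :: L) * u) = reduce (a :: toWord v) := by
      rw [e, toWord_mul, toWord_mk, reduce_singleton]; rfl
    have hvr : reduce (toWord v) = toWord v := reduce_toWord v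
    have e3 := reduce.cons (L := toWord v) a
    rw [hvr] at e3
    rcases hw : toWord v with _ | ⟨hd, tl⟩
    · rw [hw] at e3 h2
      simp only at e3
      have ht : t = [] := List.suffix_nil.mp h2
      subst ht
      rw [hw] at e2
      refine ⟨[], List.nil_suffix, List.nil_suffix, ?_, ?_⟩
      · simp only [List.length_nil, List.length_cons] at h3 ⊢; omega
      · unfold FreeGroup.norm; rw [e2, e3]; simp
    · rw [hw] at e3 h2
      simp only at e3
      rw [hw] at e2
      by_cases hc : a.1 = hd.1 ∧ a.2 = !hd.2
      · rw [if_pos hc] at e3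
        rw [e3] at e2
        rcases List.suffix_cons_iff.mp h2 with h | h
        · refine ⟨tl, ?_, by rw [e2], ?_, ?_⟩
          · refine List.IsSuffix.trans ?_ h1
            rw [h]; exact List.suffix_cons _ _
          · rw [h] at h3; simp only [List.length_cons] at h3 ⊢; omega
          · unfold FreeGroup.norm; rw [e2]; simp
        · refine ⟨t, h1, by rw [e2]; exact h, ?_, ?_⟩
          · simp only [List.length_cons]; omega
          · unfold FreeGroup.norm at h4 ⊢; rw [hw] at h4; rw [e2]
            simp only [List.length_cons] at h4 ⊢; omega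
      · rw [if_neg hc] at e3
        rw [e3] at e2
        refine ⟨t, h1, ?_, ?_, ?_⟩
        · rw [e2]; exact h2.trans (List.suffix_cons _ _)
        · simp only [List.length_cons]; omega
        · unfold FreeGroup.norm at h4 ⊢; rw [hw] at h4; rw [e2]
          simp only [List.length_cons] at h4 ⊢; omega

theorem suffix_mul (g u : FreeGroup α) :
    ∃ t : List (α × Bool), t <:+ toWord u ∧ t <:+ toWord (g * u) ∧
      norm u ≤ t.length + norm g ∧ norm (g * u) ≤ t.length + norm g := by
  have := suffix_aux (toWord g) u
  rw [mk_toWord] at this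
  exact this

omit [DecidableEq α] in
theorem sq_suffix {t W : List (α × Bool)} (h : t <:+ W) {j : ℤ} (hj : 0 ≤ j) :
    sq W ((W.length : ℤ) - t.length + j) = sq t j := by
  obtain ⟨p, rfl⟩ := h
  obtain ⟨n, rfl⟩ := Int.eq_ofNat_of_zero_le hj
  have e : (((p ++ t).length : ℕ) : ℤ) - t.length + (n : ℤ) = ((p.length + n : ℕ) : ℤ) := by
    rw [List.length_append]; push_cast; ring
  rw [e, sq_nat, sq_nat, List.getElem?_append_right (by omega)]
  congr 1
  omega

/-- the state of an element at scale N -/
def col [Fintype α] (N : ℕ) (x : FreeGroup α) : Fin 3 → Bool → Prop :=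
  PP iv N (sq (toWord x)) ((norm x : ℤ) / 2)

/-- radius -/
noncomputable def RR (α : Type) [Fintype α] (N : ℕ) : ℕ :=
  30 * N + 10 * (KK (Lt α) N).toNat + 10

theorem col_ne [Fintype α] {N : ℕ} {g u : FreeGroup α} (hg : norm g + 1 ≤ N)
    (hu : 4 * RR α N ≤ norm u) : col N (g * u) ≠ col N (g * u⁻¹) := by
  intro heq
  have hKn := KK_nonneg (Ω := Lt α) N
  have hRR : (RR α N : ℤ) = 30 * N + 10 * KK (Lt α) N + 10 := by
    unfold RR; push_cast; rw [Int.toNat_of_nonneg hKn]
  obtain ⟨t, ht1, ht2, ht3, ht4⟩ := suffix_mul g u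
  obtain ⟨s, hs1, hs2, hs3, hs4⟩ := suffix_mul g u⁻¹
  rw [norm_inv_eq] at hs3
  set x := g * u with hx
  set y := g * u⁻¹ with hy
  set v := y⁻¹ with hv
  -- lengths
  have htl : t.length ≤ norm u := ht1.length_le
  have htl2 : t.length ≤ norm x := ht2.length_le
  have hsl : s.length ≤ norm u := by
    have := hs1.length_le
    have e : (toWord u⁻¹).length = norm u := by rw [← norm_inv_eq (x := u)]; rfl
    omega
  have hsl2 : s.length ≤ norm y := hs2.length_le
  have hvy : norm v = norm y := norm_inv_eq
  set zx := sq (toWord x) with hzx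
  set zv := sq (toWord v) with hzv
  set zy := sq (toWord y) with hzy
  have hredx : Red iv zx 0 (norm x) := red_sq isReduced_toWord
  have hN : 1 ≤ N := by omega
  obtain ⟨τ, o, ho⟩ := state_exists (inv := iv) (Ω := Lt α) iv_iv (N := N) (z := zx)
    (i := (norm x : ℤ) / 2) (hredx.mono iv (by omega) (by omega))
  have hoy : PP iv N zy ((norm y : ℤ) / 2) τ o := by
    have := congrFun (congrFun heq τ) o
    have h1 : PP iv N zx ((norm x : ℤ) / 2) τ o = PP iv N zy ((norm y : ℤ) / 2) τ o := this
    rw [← h1]; exact ho
  have hflip : ∀ k, zy k = iv (zv ((norm v : ℤ) - 1 - k)) := by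
    intro k
    have h1 : toWord y = invRev (toWord v) := by
      rw [← toWord_inv, hv, inv_inv]
    rw [hzy, h1, sq_flip]
    rfl
  have hov := PP_flip (inv := iv) iv_iv hflip hoy
  -- agreement of zv and zx
  have hagree : Agree zv zx ((norm x : ℤ) - norm u) ((norm u : ℤ) - t.length) s.length := by
    intro k hk1 hk2
    have e1 : zx (k + ((norm x : ℤ) - norm u)) = sq (toWord u) k := by
      have a1 := sq_suffix ht2 (j := k - ((norm u : ℤ) - t.length)) (by omega)
      have a2 := sq_suffix ht1 (j := k - ((norm u : ℤ) - t.length)) (by omega)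
      have b1 : ((toWord x).length : ℤ) - t.length + (k - ((norm u : ℤ) - t.length)) =
          k + ((norm x : ℤ) - norm u) := by
        have : (toWord x).length = norm x := rfl
        rw [this]; ring
      have b2 : ((toWord u).length : ℤ) - t.length + (k - ((norm u : ℤ) - t.length)) = k := by
        have : (toWord u).length = norm u := rfl
        rw [this]; ring
      rw [b1] at a1
      rw [b2] at a2
      rw [hzx, a1, a2]
    have e2 : zv k = sq (toWord u) k := by
      have c1 : toWord v = invRev (toWord y) := by rw [← toWord_inv]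
      have c2 : toWord u = invRev (toWord u⁻¹) := by rw [← toWord_inv, inv_inv]
      rw [hzv, c1, c2, sq_flip, sq_flip]
      congr 1
      have a1 := sq_suffix hs2 (j := (s.length : ℤ) - 1 - k) (by omega)
      have a2 := sq_suffix hs1 (j := (s.length : ℤ) - 1 - k) (by omega)
      have b1 : ((toWord y).length : ℤ) - s.length + ((s.length : ℤ) - 1 - k) =
          ((toWord y).length : ℤ) - 1 - k := by ring
      have b2 : ((toWord u⁻¹).length : ℤ) - s.length + ((s.length : ℤ) - 1 - k) =
          ((toWord u⁻¹).length : ℤ) - 1 - k := by ring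
      rw [b1] at a1
      rw [b2] at a2
      rw [a1, a2]
    rw [e1, e2]
  have hox := PP_congr (inv := iv) hagree (by omega) (by omega) hov
  have hfin := cons (inv := iv) iv_iv hN (i := (norm x : ℤ) / 2) (hredx.mono iv (by omega) (by omega))
    (by rw [abs_le]; omega) ho hox
  cases o <;> simp at hfin

/-! ### scales -/

/-- thresholds -/
noncomputable def thr (α : Type) [Fintype α] (N : ℕ) : ℕ :=
  ∑ k ∈ Finset.range (N + 1), (4 * RR α k + 4 * k + 4)

omit [DecidableEq α] in
theorem thr_succ [Fintype α] (N : ℕ) :
    thr α (N + 1) = thr α N + (4 * RR α (N + 1) + 4 * (N + 1) + 4) := by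
  unfold thr
  rw [Finset.sum_range_succ]

omit [DecidableEq α] in
theorem thr_mono [Fintype α] : StrictMono (thr α) := by
  apply strictMono_nat_of_lt_succ
  intro n
  rw [thr_succ]; omega

omit [DecidableEq α] in
theorem thr_ge [Fintype α] (N : ℕ) : 4 * RR α N + 4 * N + 4 ≤ thr α N := by
  cases N with
  | zero => unfold thr; simp
  | succ N => rw [thr_succ]; omega

/-- the scale of a length -/
noncomputable def scale (α : Type) [Fintype α] (m : ℕ) : ℕ :=
  Nat.findGreatest (fun N => thr α N ≤ m) m

omit [DecidableEq α] in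
theorem scale_spec [Fintype α] {m N : ℕ} (h : thr α N ≤ m) :
    N ≤ scale α m ∧ thr α (scale α m) ≤ m ∧ m < thr α (scale α m + 1) := by
  have hNm : N ≤ m := by have := thr_ge (α := α) N; omega
  refine ⟨Nat.le_findGreatest hNm h, Nat.findGreatest_spec (P := fun N => thr α N ≤ m) hNm h, ?_⟩
  by_cases h1 : scale α m + 1 ≤ m
  · have := Nat.findGreatest_is_greatest (P := fun N => thr α N ≤ m) (n := m)
      (k := scale α m + 1) (Nat.lt_succ_self _) h1
    push Not at this
    exact this
  · have := thr_ge (α := α) (scale α m + 1)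
    omega

/-- the colouring -/
noncomputable def colour [Fintype α] (x : FreeGroup α) : Bool × (Fin 3 → Bool → Prop) :=
  (decide (scale α (norm x) % 2 = 0), col (scale α (norm x)) x)

theorem colour_ne [Fintype α] (g u : FreeGroup α) (hu : thr α (norm g + 2) + 4 * norm g ≤ norm u) :
    colour (g * u) ≠ colour (g * u⁻¹) := by
  intro heq
  set x := g * u with hx
  set y := g * u⁻¹ with hy
  have hx1 : norm x ≤ norm g + norm u := norm_mul_le g u
  have hx2 : norm u ≤ norm g + norm x := by
    have : u = g⁻¹ * x := by rw [hx]; group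
    calc norm u = norm (g⁻¹ * x) := by rw [← this]
      _ ≤ norm g⁻¹ + norm x := norm_mul_le _ _
      _ = norm g + norm x := by rw [norm_inv_eq]
  have hy1 : norm y ≤ norm g + norm u := by
    have := norm_mul_le g u⁻¹
    rw [norm_inv_eq] at this; exact this
  have hy2 : norm u ≤ norm g + norm y := by
    have : u⁻¹ = g⁻¹ * y := by rw [hy]; group
    calc norm u = norm u⁻¹ := norm_inv_eq.symm
      _ = norm (g⁻¹ * y) := by rw [← this]
      _ ≤ norm g⁻¹ + norm y := norm_mul_le _ _
      _ = norm g + norm y := by rw [norm_inv_eq]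
  obtain ⟨a1, a2, a3⟩ := scale_spec (α := α) (m := norm x) (N := norm g + 2) (by omega)
  obtain ⟨b1, b2, b3⟩ := scale_spec (α := α) (m := norm y) (N := norm g + 2) (by omega)
  have h1 : decide (scale α (norm x) % 2 = 0) = decide (scale α (norm y) % 2 = 0) :=
    congrArg Prod.fst heq
  have h2 : col (scale α (norm x)) x = col (scale α (norm y)) y := congrArg Prod.snd heq
  have hpar : (scale α (norm x) % 2 = 0 ↔ scale α (norm y) % 2 = 0) := by
    constructor
    · intro h
      have : decide (scale α (norm x) % 2 = 0) = true := by simp [h]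
      rw [h1] at this
      simpa using this
    · intro h
      have : decide (scale α (norm y) % 2 = 0) = true := by simp [h]
      rw [← h1] at this
      simpa using this
  rcases lt_trichotomy (scale α (norm x)) (scale α (norm y)) with h | h | h
  · have h3 : scale α (norm x) + 2 ≤ scale α (norm y) := by omega
    have h4 : thr α (scale α (norm x) + 1 + 1) ≤ thr α (scale α (norm y)) :=
      thr_mono.monotone h3
    rw [thr_succ] at h4
    omega
  · rw [← h] at h2
    have h5 := thr_ge (α := α) (scale α (norm x))
    exact col_ne (N := scale α (norm x)) (g := g) (u := u) (by omega) (by omega) h2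
  · have h3 : scale α (norm y) + 2 ≤ scale α (norm x) := by omega
    have h4 : thr α (scale α (norm y) + 1 + 1) ≤ thr α (scale α (norm x)) :=
      thr_mono.monotone h3
    rw [thr_succ] at h4
    omega

theorem finite_norm [Fintype α] (K : ℕ) : {u : FreeGroup α | norm u ≤ K}.Finite := by
  have h1 : {l : List (α × Bool) | l.length ≤ K}.Finite := List.finite_length_le _ K
  apply Set.Finite.of_injOn (f := toWord) (t := {l : List (α × Bool) | l.length ≤ K}) _ _ h1
  · intro u hu; exact hu
  · exact toWord_injective.injOn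

theorem no_infinite [Fintype α] (A : Set (FreeGroup α)) (hA : A.Infinite)
    (hsym : ∃ g : FreeGroup α, A = (fun a => g * a⁻¹ * g) '' A) :
    ¬ ∃ i, ∀ a ∈ A, colour a = i := by
  rintro ⟨i, hi⟩
  obtain ⟨g, hg⟩ := hsym
  apply hA
  have h1 : A ⊆ (fun u => g * u) '' {u : FreeGroup α | norm u ≤ thr α (norm g + 2) + 4 * norm g} := by
    intro a ha
    refine ⟨g⁻¹ * a, ?_, by simp⟩
    by_contra hlt
    simp only [Set.mem_ofPred_eq, not_le] at hlt
    apply colour_ne g (g⁻¹ * a) hlt.le
    have e1 : g * (g⁻¹ * a) = a := by group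
    have e2 : g * (g⁻¹ * a)⁻¹ = g * a⁻¹ * g := by group
    rw [e1, e2, hi a ha]
    have : g * a⁻¹ * g ∈ A := by
      rw [hg]; exact ⟨a, ha, rfl⟩
    rw [hi _ this]
  exact ((finite_norm _).image _).subset h1

end Pool.Agent.Helper36.F2Col
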