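import Mathlib
set_option autoImplicit false

/-! A derandomised rounding lemma (method of conditional expectations). -/

namespace Pool.Agent.Helper36.Round

open Finset Function

lemma exp_le_add_exp_sq (y : ℝ) : Real.exp y ≤ y + Real.exp (y ^ 2) := by
  by_cases h : |y| ≤ 1
  · have h1 := Real.abs_exp_sub_one_sub_id_le h
    have h2 := (abs_le.1 h1).2
    have h3 := Real.add_one_le_exp (y ^ 2)
    linarith
  · rw [not_le, lt_abs] at h
    rcases h with h | h
    · have : Real.exp y ≤ Real.exp (y ^ 2) := Real.exp_le_exp.2 (by nlinarith)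
      linarith
    · have h1 : Real.exp y ≤ 1 := Real.exp_le_one_iff.2 (by linarith)
      have h3 := Real.add_one_le_exp (y ^ 2)
      nlinarith

lemma two_point (p a b : ℝ) (h0 : 0 ≤ p) (h1 : p ≤ 1) :
    p * Real.exp a + (1 - p) * Real.exp b ≤
      Real.exp (p * a + (1 - p) * b + (a - b) ^ 2) := by
  set m := p * a + (1 - p) * b with hm
  have ha : a - m = (1 - p) * (a - b) := by rw [hm]; ring
  have hb : b - m = - (p * (a - b)) := by rw [hm]; ring
  have h1p : 0 ≤ 1 - p := by linarith
  have ea : (a - m) ^ 2 ≤ (a - b) ^ 2 := by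
    rw [ha, mul_pow]
    have : (1 - p) ^ 2 ≤ 1 := by nlinarith
    nlinarith [sq_nonneg (a - b)]
  have eb : (b - m) ^ 2 ≤ (a - b) ^ 2 := by
    rw [hb, neg_sq, mul_pow]
    have : p ^ 2 ≤ 1 := by nlinarith
    nlinarith [sq_nonneg (a - b)]
  have ka : Real.exp (a - m) ≤ (a - m) + Real.exp ((a - b) ^ 2) :=
    (exp_le_add_exp_sq _).trans (by have := Real.exp_le_exp.2 ea; linarith)
  have kb : Real.exp (b - m) ≤ (b - m) + Real.exp ((a - b) ^ 2) :=
    (exp_le_add_exp_sq _).trans (by have := Real.exp_le_exp.2 eb; linarith)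
  have key : p * Real.exp (a - m) + (1 - p) * Real.exp (b - m) ≤ Real.exp ((a - b) ^ 2) := by
    have e1 := mul_le_mul_of_nonneg_left ka h0
    have e2 := mul_le_mul_of_nonneg_left kb h1p
    have e3 : p * (a - m) + (1 - p) * (b - m) = 0 := by rw [hm]; ring
    nlinarith
  have hexp : Real.exp (m + (a - b) ^ 2) = Real.exp m * Real.exp ((a - b) ^ 2) := Real.exp_add _ _
  rw [hexp]
  have h2 := mul_le_mul_of_nonneg_left key (Real.exp_pos m).le
  have e4 : Real.exp m * (p * Real.exp (a - m) + (1 - p) * Real.exp (b - m)) =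
      p * Real.exp a + (1 - p) * Real.exp b := by
    have : Real.exp a = Real.exp m * Real.exp (a - m) := by rw [← Real.exp_add]; congr 1; ring
    have : Real.exp b = Real.exp m * Real.exp (b - m) := by rw [← Real.exp_add]; congr 1; ring
    nlinarith
  linarith

variable {J K : Type*} [Fintype J] [DecidableEq J] [Fintype K]

lemma rounding_aux (G : K → (J → ℝ) → ℝ) (c : J → ℝ) (p : J → ℝ)
    (hp : ∀ j, p j ∈ Set.Icc (0 : ℝ) 1)
    (haff : ∀ k s j, (∀ i, s i ∈ Set.Icc (0 : ℝ) 1) →
      G k s = s j * G k (update s j 1) + (1 - s j) * G k (update s j 0))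
    (hdiff : ∀ k s j, (∀ i, s i ∈ Set.Icc (0 : ℝ) 1) →
      |G k (update s j 1) - G k (update s j 0)| ≤ c j)
    (lam : ℝ) (A : Finset J) :
    ∃ s : J → ℝ, (∀ j ∈ A, s j = 0 ∨ s j = 1) ∧ (∀ j ∉ A, s j = p j) ∧
      ∑ k, Real.exp (lam * (G k s - G k p)) ≤
        Fintype.card K * Real.exp (lam ^ 2 * ∑ j ∈ A, c j ^ 2) := by
  induction A using Finset.induction_on with
  | empty =>
    refine ⟨p, by simp, by simp, by simp⟩
  | insert a A ha ih =>
    obtain ⟨s, hs1, hs2, hs3⟩ := ih
    have hs01 : ∀ i, s i ∈ Set.Icc (0 : ℝ) 1 := by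
      intro i
      by_cases hi : i ∈ A
      · rcases hs1 i hi with h | h <;> simp [h]
      · rw [hs2 i hi]; exact hp i
    set S1 := ∑ k, Real.exp (lam * (G k (update s a 1) - G k p)) with hS1
    set S0 := ∑ k, Real.exp (lam * (G k (update s a 0) - G k p)) with hS0
    have hconv : s a * S1 + (1 - s a) * S0 ≤
        Real.exp (lam ^ 2 * c a ^ 2) * ∑ k, Real.exp (lam * (G k s - G k p)) := by
      rw [hS1, hS0, Finset.mul_sum, Finset.mul_sum, ← Finset.sum_add_distrib, Finset.mul_sum]
      refine Finset.sum_le_sum fun k _ => ?_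
      refine (two_point (s a) _ _ (hs01 a).1 (hs01 a).2).trans ?_
      rw [← Real.exp_add]
      apply Real.exp_le_exp.2
      have e1 := haff k s a hs01
      have e2 := hdiff k s a hs01
      have e3 : (lam * (G k (update s a 1) - G k p) - lam * (G k (update s a 0) - G k p)) ^ 2 ≤
          lam ^ 2 * c a ^ 2 := by
        have : (lam * (G k (update s a 1) - G k p) - lam * (G k (update s a 0) - G k p)) ^ 2 =
          lam ^ 2 * (G k (update s a 1) - G k (update s a 0)) ^ 2 := by ring
        rw [this]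
        apply mul_le_mul_of_nonneg_left _ (sq_nonneg _)
        rw [← sq_abs]
        exact pow_le_pow_left₀ (abs_nonneg _) e2 2
      have e4 : s a * (lam * (G k (update s a 1) - G k p)) +
          (1 - s a) * (lam * (G k (update s a 0) - G k p)) = lam * (G k s - G k p) := by
        rw [e1]; ring
      linarith
    have hbound : Real.exp (lam ^ 2 * c a ^ 2) * ∑ k, Real.exp (lam * (G k s - G k p)) ≤
        Fintype.card K * Real.exp (lam ^ 2 * ∑ j ∈ insert a A, c j ^ 2) := by
      rw [Finset.sum_insert ha, mul_add, Real.exp_add]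
      have := mul_le_mul_of_nonneg_left hs3 (Real.exp_pos (lam ^ 2 * c a ^ 2)).le
      linarith [this]
    have hex : ∃ v : ℝ, (v = 0 ∨ v = 1) ∧
        ∑ k, Real.exp (lam * (G k (update s a v) - G k p)) ≤
        Fintype.card K * Real.exp (lam ^ 2 * ∑ j ∈ insert a A, c j ^ 2) := by
      by_contra hcon
      push Not at hcon
      have h1 := hcon 1 (Or.inr rfl)
      have h0 := hcon 0 (Or.inl rfl)
      have g0 := (hs01 a).1
      have g1 := (hs01 a).2
      rw [← hS1] at h1
      rw [← hS0] at h0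
      set B := (Fintype.card K : ℝ) * Real.exp (lam ^ 2 * ∑ j ∈ insert a A, c j ^ 2)
      have k1 : 0 ≤ s a * (S1 - B) := mul_nonneg g0 (by linarith)
      have k2 : 0 ≤ (1 - s a) * (S0 - B) := mul_nonneg (by linarith) (by linarith)
      have k3 : s a * (S1 - B) = 0 := by nlinarith
      have k4 : (1 - s a) * (S0 - B) = 0 := by nlinarith
      have k5 : s a = 0 := (mul_eq_zero.1 k3).resolve_right (by linarith)
      rw [k5] at k4
      have : (1 : ℝ) * (S0 - B) = 0 := by simpa using k4
      linarith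
    obtain ⟨v, hv, hv2⟩ := hex
    refine ⟨update s a v, ?_, ?_, hv2⟩
    · intro j hj
      by_cases hja : j = a
      · subst hja; simpa using hv
      · rw [update_of_ne hja]
        exact hs1 j ((Finset.mem_insert.1 hj).resolve_left hja)
    · intro j hj
      rw [Finset.mem_insert, not_or] at hj
      rw [update_of_ne hj.1]
      exact hs2 j hj.2

/-- Rounding: functions affine in every coordinate with small differences can be simultaneously
rounded to a `0/1` point without increasing any of them by more than `t`. -/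
theorem rounding (G : K → (J → ℝ) → ℝ) (c : J → ℝ) (p : J → ℝ)
    (hp : ∀ j, p j ∈ Set.Icc (0 : ℝ) 1)
    (haff : ∀ k s j, (∀ i, s i ∈ Set.Icc (0 : ℝ) 1) →
      G k s = s j * G k (update s j 1) + (1 - s j) * G k (update s j 0))
    (hdiff : ∀ k s j, (∀ i, s i ∈ Set.Icc (0 : ℝ) 1) →
      |G k (update s j 1) - G k (update s j 0)| ≤ c j)
    (lam t : ℝ) (hlam : 0 < lam)
    (hsmall : Fintype.card K * Real.exp (lam ^ 2 * ∑ j, c j ^ 2) < Real.exp (lam * t)) :
    ∃ s : J → ℝ, (∀ j, s j = 0 ∨ s j = 1) ∧ ∀ k, G k s < G k p + t := by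
  obtain ⟨s, hs1, -, hs3⟩ := rounding_aux G c p hp haff hdiff lam Finset.univ
  refine ⟨s, fun j => hs1 j (Finset.mem_univ j), fun k => ?_⟩
  have h1 : Real.exp (lam * (G k s - G k p)) < Real.exp (lam * t) :=
    lt_of_le_of_lt (le_trans (Finset.single_le_sum (f := fun k => Real.exp (lam * (G k s - G k p)))
      (fun _ _ => (Real.exp_pos _).le) (Finset.mem_univ k)) hs3) hsmall
  have h2 := Real.exp_lt_exp.1 h1
  have h3 := lt_of_mul_lt_mul_left h2 hlam.le
  linarith

end Pool.Agent.Helper36.Round
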