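import Mathlib
import Pool.Agent.Helper36.Round
set_option autoImplicit false

/-! Realising a fractional 2-colouring by a genuine one, measure-theoretic part. -/

namespace Pool.Agent.Helper36.RealizeAbs

open MeasureTheory Set Function

section
variable {J : Type*} [Fintype J] [DecidableEq J]

/-- multilinear extension of `s a * s b` on `0/1` vectors -/
noncomputable def Phi (s : J → ℝ) (a b : J) : ℝ := if a = b then s a else s a * s b

omit [Fintype J] in
lemma Phi_affine (s : J → ℝ) (j a b : J) :
    Phi s a b = s j * Phi (update s j 1) a b + (1 - s j) * Phi (update s j 0) a b := by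
  unfold Phi
  by_cases hab : a = b
  · subst hab
    simp only [if_true]
    by_cases h : a = j
    · subst h; simp
    · rw [update_of_ne h, update_of_ne h]; ring
  · simp only [if_neg hab]
    by_cases h : a = j
    · subst h
      rw [update_self, update_self, update_of_ne (Ne.symm hab), update_of_ne (Ne.symm hab)]
      ring
    · by_cases h' : b = j
      · subst h'
        rw [update_self, update_self, update_of_ne h, update_of_ne h]
        ring
      · rw [update_of_ne h, update_of_ne h, update_of_ne h', update_of_ne h']; ring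

omit [Fintype J] in
lemma Phi_mem (s : J → ℝ) (hs : ∀ i, s i ∈ Icc (0 : ℝ) 1) (a b : J) :
    Phi s a b ∈ Icc (0 : ℝ) 1 := by
  unfold Phi
  split_ifs
  · exact hs a
  · exact ⟨mul_nonneg (hs a).1 (hs b).1, mul_le_one₀ (hs a).2 (hs b).1 (hs b).2⟩

omit [Fintype J] in
lemma Phi_diff (s : J → ℝ) (hs : ∀ i, s i ∈ Icc (0 : ℝ) 1) (j a b : J) :
    |Phi (update s j 1) a b - Phi (update s j 0) a b| ≤
      (if a = j then 1 else 0) + (if b = j then 1 else 0) := by
  unfold Phi
  by_cases hab : a = b
  · subst hab
    simp only [if_true]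
    by_cases h : a = j
    · subst h; simp
    · rw [update_of_ne h, update_of_ne h]; simp [h]
  · simp only [if_neg hab]
    by_cases h : a = j
    · subst h
      rw [update_self, update_self, update_of_ne (Ne.symm hab), update_of_ne (Ne.symm hab)]
      have := hs b
      simp only [if_true, if_neg (Ne.symm hab)]
      rw [abs_le]; constructor <;> nlinarith [this.1, this.2]
    · by_cases h' : b = j
      · subst h'
        rw [update_self, update_self, update_of_ne h, update_of_ne h]
        have := hs a
        simp only [if_true, if_neg h]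
        rw [abs_le]; constructor <;> nlinarith [this.1, this.2]
      · rw [update_of_ne h, update_of_ne h, update_of_ne h', update_of_ne h']
        simp [h, h']

omit [Fintype J] in
lemma Phi_le (s : J → ℝ) (hs : ∀ i, s i ∈ Icc (0 : ℝ) 1) (a b : J) :
    Phi s a b ≤ s a * s b + (if a = b then 1 else 0) := by
  unfold Phi
  split_ifs with h
  · nlinarith [(hs a).1, (hs a).2, (hs b).1, (hs b).2, mul_nonneg (hs a).1 (hs b).1]
  · simp

end

variable {X : Type*} [MeasurableSpace X] (μ : Measure X) [IsProbabilityMeasure μ]
variable {J : Type*} [Fintype J] [DecidableEq J] [MeasurableSpace J] [DiscreteMeasurableSpace J]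

/-- the functional attached to a map `T` -/
noncomputable def Gf (q : X → J) (T : X → X) (s : J → ℝ) : ℝ := ∫ x, Phi s (q x) (q (T x)) ∂μ

variable {μ}

lemma meas_comp {q : X → J} (hq : Measurable q) {T : X → X} (hT : Measurable T)
    (F : J → J → ℝ) : Measurable fun x => F (q x) (q (T x)) := by
  have : Measurable fun z : J × J => F z.1 z.2 := Measurable.of_discrete
  exact this.comp (hq.prodMk (hq.comp hT))

lemma integrable_comp {q : X → J} (hq : Measurable q) {T : X → X} (hT : Measurable T)
    (F : J → J → ℝ) : Integrable (fun x => F (q x) (q (T x))) μ := by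
  obtain ⟨C, hC⟩ : ∃ C, ∀ z : J × J, ‖F z.1 z.2‖ ≤ C := by
    obtain ⟨C, hC⟩ := (Set.finite_range fun z : J × J => ‖F z.1 z.2‖).bddAbove
    exact ⟨C, fun z => hC ⟨z, rfl⟩⟩
  exact Integrable.of_bound (meas_comp hq hT F).aestronglyMeasurable C
    (Filter.Eventually.of_forall fun x => hC (q x, q (T x)))

lemma Gf_affine {q : X → J} (hq : Measurable q) {T : X → X} (hT : Measurable T)
    (s : J → ℝ) (j : J) :
    Gf μ q T s = s j * Gf μ q T (update s j 1) + (1 - s j) * Gf μ q T (update s j 0) := by
  unfold Gf
  rw [← integral_const_mul, ← integral_const_mul, ← integral_add]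
  · exact integral_congr_ae (Filter.Eventually.of_forall fun x => Phi_affine s j _ _)
  · exact (integrable_comp hq hT _).const_mul _
  · exact (integrable_comp hq hT _).const_mul _

lemma Gf_diff {q : X → J} (hq : Measurable q) {T : X → X} (hT : MeasurePreserving T μ μ)
    (s : J → ℝ) (hs : ∀ i, s i ∈ Icc (0 : ℝ) 1) (j : J) :
    |Gf μ q T (update s j 1) - Gf μ q T (update s j 0)| ≤ 2 * μ.real (q ⁻¹' {j}) := by
  unfold Gf
  rw [← integral_sub (integrable_comp hq hT.measurable _) (integrable_comp hq hT.measurable _)]
  have hm : MeasurableSet (q ⁻¹' {j}) := hq (measurableSet_singleton j)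
  calc |∫ x, (Phi (update s j 1) (q x) (q (T x)) - Phi (update s j 0) (q x) (q (T x))) ∂μ|
      ≤ ∫ x, |Phi (update s j 1) (q x) (q (T x)) - Phi (update s j 0) (q x) (q (T x))| ∂μ :=
        abs_integral_le_integral_abs
    _ ≤ ∫ x, ((q ⁻¹' {j}).indicator (fun _ => (1 : ℝ)) x +
          (T ⁻¹' (q ⁻¹' {j})).indicator (fun _ => (1 : ℝ)) x) ∂μ := by
        refine integral_mono ?_ ?_ ?_
        · exact (integrable_comp (μ := μ) hq hT.measurable
            (fun a b => Phi (update s j 1) a b - Phi (update s j 0) a b)).abs
        · exact ((integrable_const _).indicator hm).add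
            ((integrable_const _).indicator (hT.measurable hm))
        · intro x
          refine (Phi_diff s hs j (q x) (q (T x))).trans (le_of_eq ?_)
          simp only [indicator, mem_preimage, mem_singleton_iff]
    _ = 2 * μ.real (q ⁻¹' {j}) := by
        rw [integral_add ((integrable_const _).indicator hm)
          ((integrable_const _).indicator (hT.measurable hm)),
          integral_indicator_const _ hm, integral_indicator_const _ (hT.measurable hm)]
        rw [measureReal_def, measureReal_def, hT.measure_preimage hm.nullMeasurableSet]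
        simp; ring

/-- The value at a genuine colouring. -/
lemma Gf_bool {q : X → J} (hq : Measurable q) {T : X → X} (hT : Measurable T)
    (s : J → ℝ) (hs : ∀ j, s j = 0 ∨ s j = 1) :
    Gf μ q T s = μ.real {x | s (q x) = 1 ∧ s (q (T x)) = 1} := by
  unfold Gf
  have hm : MeasurableSet {x | s (q x) = 1 ∧ s (q (T x)) = 1} := by
    have h1 : Measurable fun x => s (q x) := (Measurable.of_discrete (f := s)).comp hq
    have h2 : Measurable fun x => s (q (T x)) := h1.comp hT
    exact (h1 (measurableSet_singleton 1)).inter (h2 (measurableSet_singleton 1))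
  have : (fun x => Phi s (q x) (q (T x))) =
      {x | s (q x) = 1 ∧ s (q (T x)) = 1}.indicator (fun _ => (1 : ℝ)) := by
    ext x
    unfold Phi
    simp only [indicator, mem_setOf_eq]
    by_cases hab : q x = q (T x)
    · rw [if_pos hab, ← hab]
      rcases hs (q x) with h | h <;> simp [h]
    · rw [if_neg hab]
      rcases hs (q x) with h | h <;> rcases hs (q (T x)) with h' | h' <;> simp [h, h']
  rw [this, integral_indicator_const _ hm]
  simp

lemma Gf_le {q : X → J} (hq : Measurable q) {T : X → X} (hT : MeasurePreserving T μ μ)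
    (p : J → ℝ) (hp : ∀ i, p i ∈ Icc (0 : ℝ) 1) (h : X → ℝ) (hh : Measurable h)
    (h01 : ∀ᵐ x ∂μ, h x ∈ Icc (0 : ℝ) 1) (η : ℝ) (hη : ∀ᵐ x ∂μ, |p (q x) - h x| ≤ η) :
    Gf μ q T p ≤ ∫ x, h x * h (T x) ∂μ + 2 * η + μ.real {x | q x = q (T x)} := by
  have hm : MeasurableSet {x | q x = q (T x)} := by
    have : {x | q x = q (T x)} = ⋃ j, (q ⁻¹' {j} ∩ T ⁻¹' (q ⁻¹' {j})) := by
      ext x
      simp [eq_comm]
    rw [this]
    exact MeasurableSet.iUnion fun j => (hq (measurableSet_singleton j)).inter
      (hT.measurable (hq (measurableSet_singleton j)))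
  have h01' : ∀ᵐ x ∂μ, h (T x) ∈ Icc (0 : ℝ) 1 := hT.quasiMeasurePreserving.ae h01
  have hη' : ∀ᵐ x ∂μ, |p (q (T x)) - h (T x)| ≤ η := hT.quasiMeasurePreserving.ae hη
  have hint : Integrable (fun x => h x * h (T x)) μ := by
    refine Integrable.of_bound (hh.mul (hh.comp hT.measurable)).aestronglyMeasurable 1 ?_
    filter_upwards [h01, h01'] with x hx hx'
    rw [Real.norm_eq_abs, abs_of_nonneg (mul_nonneg hx.1 hx'.1)]
    exact mul_le_one₀ hx.2 hx'.1 hx'.2
  have hint2 : Integrable (fun x => h x * h (T x) + 2 * η) μ := hint.add (integrable_const _)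
  have e : ∫ x, h x * h (T x) ∂μ + 2 * η + μ.real {x | q x = q (T x)} =
      ∫ x, (h x * h (T x) + 2 * η + {x | q x = q (T x)}.indicator (fun _ => (1 : ℝ)) x) ∂μ := by
    rw [integral_add hint2 ((integrable_const _).indicator hm),
      integral_add hint (integrable_const _), integral_indicator_const _ hm]
    simp
  rw [e]
  refine integral_mono_ae (integrable_comp hq hT.measurable _)
    (hint2.add ((integrable_const _).indicator hm)) ?_
  filter_upwards [h01, h01', hη, hη'] with x hx hx' hy hy'
  refine (Phi_le p hp (q x) (q (T x))).trans ?_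
  have k1 : p (q x) * p (q (T x)) ≤ h x * h (T x) + 2 * η := by
    have a1 := abs_le.1 hy
    have a2 := abs_le.1 hy'
    have e0 : 0 ≤ η := (abs_nonneg _).trans hy
    have b1 : p (q x) * p (q (T x)) ≤ p (q x) * h (T x) + η := by
      have : p (q x) * (p (q (T x)) - h (T x)) ≤ 1 * η := by
        calc p (q x) * (p (q (T x)) - h (T x)) ≤ p (q x) * η :=
              mul_le_mul_of_nonneg_left a2.2 (hp _).1
          _ ≤ 1 * η := mul_le_mul_of_nonneg_right (hp _).2 e0
      linarith
    have b2 : p (q x) * h (T x) ≤ h x * h (T x) + η := by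
      have : (p (q x) - h x) * h (T x) ≤ η * 1 := by
        calc (p (q x) - h x) * h (T x) ≤ η * h (T x) :=
              mul_le_mul_of_nonneg_right a1.2 hx'.1
          _ ≤ η * 1 := mul_le_mul_of_nonneg_left hx'.2 e0
      linarith
    linarith
  have k2 : (if q x = q (T x) then (1 : ℝ) else 0) =
      {x | q x = q (T x)}.indicator (fun _ => (1 : ℝ)) x := by
    simp only [indicator, mem_setOf_eq]
  rw [k2]
  linarith

theorem realize_abs {K : Type*} [Fintype K] {q : X → J} (hq : Measurable q) (T : K → X → X)
    (hT : ∀ k, MeasurePreserving (T k) μ μ)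
    (p : J → ℝ) (hp : ∀ i, p i ∈ Icc (0 : ℝ) 1) (h : X → ℝ) (hh : Measurable h)
    (h01 : ∀ᵐ x ∂μ, h x ∈ Icc (0 : ℝ) 1) (η : ℝ) (hη : ∀ᵐ x ∂μ, |p (q x) - h x| ≤ η)
    (κ θ : ℝ) (hκ : ∀ j, μ.real (q ⁻¹' {j}) ≤ κ)
    (hθ : ∀ k, μ.real {x | q x = q (T k x)} ≤ θ) (lam t : ℝ) (hlam : 0 < lam)
    (hsmall : 2 * Fintype.card K * Real.exp (lam ^ 2 * (4 * κ)) < Real.exp (lam * t)) :
    ∃ c : J → Bool, ∀ k,
      μ.real {x | c (q x) = true ∧ c (q (T k x)) = true} ≤
        ∫ x, h x * h (T k x) ∂μ + 2 * η + θ + t ∧
      μ.real {x | c (q x) = false ∧ c (q (T k x)) = false} ≤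
        ∫ x, (1 - h x) * (1 - h (T k x)) ∂μ + 2 * η + θ + t := by
  classical
  set G : K × Bool → (J → ℝ) → ℝ := fun kb s =>
    if kb.2 then Gf μ q (T kb.1) s else Gf μ q (T kb.1) (fun i => 1 - s i) with hG
  have hupd : ∀ (s : J → ℝ) (j : J) (v : ℝ),
      (fun i => 1 - update s j v i) = update (fun i => 1 - s i) j (1 - v) := by
    intro s j v
    ext i
    by_cases hi : i = j
    · subst hi; simp
    · rw [update_of_ne hi, update_of_ne hi]
  obtain ⟨s, hs, hs2⟩ := Round.rounding (K := K × Bool) G (fun j => 2 * μ.real (q ⁻¹' {j})) p hp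
    (by
      rintro ⟨k, b⟩ s j -
      cases b
      · simp only [hG, Bool.false_eq_true, if_false]
        rw [hupd, hupd, Gf_affine hq (hT k).measurable (fun i => 1 - s i) j]
        simp only [sub_self, sub_zero]
        ring
      · simp only [hG, if_true]
        exact Gf_affine hq (hT k).measurable s j)
    (by
      rintro ⟨k, b⟩ s j hs
      cases b
      · simp only [hG, Bool.false_eq_true, if_false]
        rw [hupd, hupd]
        simp only [sub_self, sub_zero]
        rw [abs_sub_comm]
        exact Gf_diff hq (hT k) (fun i => 1 - s i)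
          (fun i => ⟨by linarith [(hs i).2], by linarith [(hs i).1]⟩) j
      · simp only [hG, if_true]
        exact Gf_diff hq (hT k) s hs j)
    lam t hlam
    (by
      refine lt_of_le_of_lt ?_ hsmall
      have h1 : ∑ j, (2 * μ.real (q ⁻¹' {j})) ^ 2 ≤ 4 * κ := by
        have h2 : ∑ j, μ.real (q ⁻¹' {j}) = 1 := by
          have := measureReal_biUnion_finset (μ := μ) (s := (Finset.univ : Finset J))
            (f := fun j => q ⁻¹' {j}) ?_ ?_
          · rw [← this]
            have : (⋃ b ∈ (Finset.univ : Finset J), q ⁻¹' {b}) = Set.univ := by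
              ext x; simp
            rw [this]; simp
          · intro a _ b _ hab
            exact Set.disjoint_left.2 fun x hx hx' => hab (hx.symm.trans hx')
          · intro b _
            exact hq (measurableSet_singleton b)
        calc ∑ j, (2 * μ.real (q ⁻¹' {j})) ^ 2 ≤ ∑ j, 4 * κ * μ.real (q ⁻¹' {j}) := by
              refine Finset.sum_le_sum fun j _ => ?_
              have a1 : 0 ≤ μ.real (q ⁻¹' {j}) := measureReal_nonneg
              have a2 := hκ j
              nlinarith
          _ = 4 * κ := by rw [← Finset.mul_sum, h2, mul_one]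
      have h3 : (Fintype.card (K × Bool) : ℝ) = 2 * Fintype.card K := by
        rw [Fintype.card_prod, Fintype.card_bool]; push_cast; ring
      rw [h3]
      apply mul_le_mul_of_nonneg_left _ (by positivity)
      apply Real.exp_le_exp.2
      exact mul_le_mul_of_nonneg_left h1 (sq_nonneg _))
  refine ⟨fun j => decide (s j = 1), fun k => ⟨?_, ?_⟩⟩
  · have h1 := hs2 (k, true)
    simp only [hG, if_true] at h1
    rw [Gf_bool hq (hT k).measurable s hs] at h1
    have h2 := Gf_le hq (hT k) p hp h hh h01 η hη
    have h3 := hθ k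
    simp only [decide_eq_true_eq]
    linarith
  · have h1 := hs2 (k, false)
    simp only [hG, Bool.false_eq_true, if_false] at h1
    rw [Gf_bool hq (hT k).measurable (fun i => 1 - s i)
      (fun j => (hs j).symm.imp (fun h => by rw [h]; ring) (fun h => by rw [h]; ring))] at h1
    have h2 := Gf_le hq (hT k) (fun i => 1 - p i)
      (fun i => ⟨by linarith [(hp i).2], by linarith [(hp i).1]⟩) (fun x => 1 - h x)
      (measurable_const.sub hh)
      (by filter_upwards [h01] with x hx
          exact ⟨by linarith [hx.2], by linarith [hx.1]⟩) η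
      (by filter_upwards [hη] with x hx
          have : 1 - p (q x) - (1 - h x) = -(p (q x) - h x) := by ring
          rw [this, abs_neg]; exact hx)
    have h3 := hθ k
    have h4 : {x | decide (s (q x) = 1) = false ∧ decide (s (q (T k x)) = 1) = false} =
        {x | 1 - s (q x) = 1 ∧ 1 - s (q (T k x)) = 1} := by
      ext x
      simp only [decide_eq_false_iff_not, mem_setOf_eq]
      rcases hs (q x) with h | h <;> rcases hs (q (T k x)) with h' | h' <;> simp [h, h']
    rw [h4]
    linarith

end Pool.Agent.Helper36.RealizeAbs
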