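import Mathlib
set_option autoImplicit false

/-! The normalised surface measure of the unit sphere of `ℝ^d`, as a measure on `ℝ^d`. -/

namespace Pool.Agent.Helper36.SphMeas

open MeasureTheory Measure Set Metric
open scoped ENNReal Pointwise RealInnerProductSpace

/-- The properties of the measure that the argument uses. -/
structure SphLike {E : Type*} [NormedAddCommGroup E] [InnerProductSpace ℝ E]
    [MeasurableSpace E] (μ : Measure E) : Prop where
  prob : IsProbabilityMeasure μ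
  ae_norm : ∀ᵐ x ∂μ, ‖x‖ = 1
  inv : ∀ T : E ≃ₗᵢ[ℝ] E, MeasurePreserving T μ μ
  slab : ∃ C : ℝ, 0 < C ∧ ∀ a : E, ‖a‖ = 1 → ∀ t : ℝ, 0 ≤ t →
    μ.real {x | |⟪a, x⟫| ≤ t} ≤ C * t

variable {d : ℕ}

/-- Normalised surface measure. -/
noncomputable def sph (d : ℕ) : Measure (EuclideanSpace ℝ (Fin d)) :=
  ((volume : Measure (EuclideanSpace ℝ (Fin d))).toSphere univ)⁻¹ •
    ((volume : Measure (EuclideanSpace ℝ (Fin d))).toSphere).map Subtype.val

lemma sph_apply {A : Set (EuclideanSpace ℝ (Fin d))} (hA : MeasurableSet A) :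
    sph d A = ((volume : Measure (EuclideanSpace ℝ (Fin d))).toSphere univ)⁻¹ *
      (volume : Measure (EuclideanSpace ℝ (Fin d))).toSphere (Subtype.val ⁻¹' A) := by
  rw [sph, Measure.smul_apply, map_apply measurable_subtype_coe hA, smul_eq_mul]

lemma toSphere_univ_ne_zero (hd : 0 < d) :
    (volume : Measure (EuclideanSpace ℝ (Fin d))).toSphere univ ≠ 0 := by
  have : Nontrivial (EuclideanSpace ℝ (Fin d)) := by
    haveI : Nonempty (Fin d) := ⟨⟨0, hd⟩⟩
    infer_instance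
  rw [Ne, measure_univ_eq_zero]
  exact toSphere_ne_zero _

lemma sph_prob (hd : 0 < d) : IsProbabilityMeasure (sph d) := by
  constructor
  rw [sph_apply MeasurableSet.univ, preimage_univ]
  exact ENNReal.inv_mul_cancel (toSphere_univ_ne_zero hd) (measure_ne_top _ _)

lemma sph_ae : ∀ᵐ x ∂(sph d), ‖x‖ = 1 := by
  rw [ae_iff]
  have hm : MeasurableSet {a : EuclideanSpace ℝ (Fin d) | ¬‖a‖ = 1} :=
    (measurableSet_eq_fun measurable_norm measurable_const).compl
  rw [sph_apply hm]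
  have : (Subtype.val ⁻¹' {a | ¬‖a‖ = 1} : Set (sphere (0 : EuclideanSpace ℝ (Fin d)) 1)) = ∅ := by
    ext ⟨x, hx⟩
    simp at hx ⊢
  rw [this]; simp

lemma sph_inv (T : EuclideanSpace ℝ (Fin d) ≃ₗᵢ[ℝ] EuclideanSpace ℝ (Fin d)) :
    MeasurePreserving T (sph d) (sph d) := by
  have hT : Measurable T := T.continuous.measurable
  refine ⟨hT, ?_⟩
  ext A hA
  rw [map_apply hT hA, sph_apply (hT hA), sph_apply hA,
    toSphere_apply' _ (measurable_subtype_coe (hT hA)),
    toSphere_apply' _ (measurable_subtype_coe hA)]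
  congr 2
  have h1 : Ioo (0 : ℝ) 1 • ((↑) '' (Subtype.val ⁻¹' (T ⁻¹' A) :
      Set (sphere (0 : EuclideanSpace ℝ (Fin d)) 1)) : Set (EuclideanSpace ℝ (Fin d))) =
      T ⁻¹' (Ioo (0 : ℝ) 1 • ((↑) '' (Subtype.val ⁻¹' A :
      Set (sphere (0 : EuclideanSpace ℝ (Fin d)) 1)) : Set (EuclideanSpace ℝ (Fin d)))) := by
    ext y
    simp only [mem_preimage, Set.mem_smul, Subtype.image_preimage_coe, mem_inter_iff]
    constructor
    · rintro ⟨r, hr, x, ⟨hx1, hx2⟩, rfl⟩
      refine ⟨r, hr, T x, ⟨?_, hx2⟩, by simp⟩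
      simp at hx1 ⊢; exact hx1
    · rintro ⟨r, hr, x, ⟨hx1, hx2⟩, hx⟩
      refine ⟨r, hr, T.symm x, ⟨?_, by simpa using hx2⟩, ?_⟩
      · simp at hx1 ⊢; exact hx1
      · apply T.injective
        rw [map_smul, T.apply_symm_apply, hx]
  rw [h1]
  have h2 := T.measurePreserving
  have h3 : MeasurePreserving T.toHomeomorph.toMeasurableEquiv
    (volume : Measure (EuclideanSpace ℝ (Fin d))) volume := h2
  exact h3.measure_preimage_equiv _

lemma slab_aux (hd : 0 < d) (a : EuclideanSpace ℝ (Fin d)) (ha : ‖a‖ = 1) (t : ℝ) (ht : 0 ≤ t) :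
    volume {y : EuclideanSpace ℝ (Fin d) | |⟪a, y⟫| ≤ t ∧ ‖y‖ ≤ 1} ≤
      ENNReal.ofReal (2 ^ d * t) := by
  set i0 : Fin d := ⟨0, hd⟩
  have horth : Orthonormal ℝ (({i0} : Set (Fin d)).domRestrict (fun _ => a)) := by
    constructor
    · intro i; exact ha
    · intro i j hij
      exact absurd (Subtype.ext ((Set.mem_singleton_iff.1 i.2).trans
        (Set.mem_singleton_iff.1 j.2).symm)) hij
  obtain ⟨b, hb⟩ := Orthonormal.exists_orthonormalBasis_extension_of_card_eq
    (ι := Fin d) (𝕜 := ℝ) (E := EuclideanSpace ℝ (Fin d)) (by simp) horth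
  have hb0 : b i0 = a := hb i0 (by simp)
  have hmp := b.measurePreserving_repr
  have hmp' : MeasurePreserving b.repr.toHomeomorph.toMeasurableEquiv
    (volume : Measure (EuclideanSpace ℝ (Fin d))) volume := hmp
  set box : Set (Fin d → ℝ) := Set.pi univ (fun i => if i = i0 then Icc (-t) t else Icc (-1) 1)
  have hsub : {y : EuclideanSpace ℝ (Fin d) | |⟪a, y⟫| ≤ t ∧ ‖y‖ ≤ 1} ⊆
      b.repr.toHomeomorph.toMeasurableEquiv ⁻¹'
        ((WithLp.ofLp : EuclideanSpace ℝ (Fin d) → (Fin d → ℝ)) ⁻¹' box) := by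
    rintro y ⟨hy1, hy2⟩
    simp only [mem_preimage, box, mem_pi, mem_univ, forall_true_left]
    intro i
    have hc : (WithLp.ofLp (b.repr.toHomeomorph.toMeasurableEquiv y) : Fin d → ℝ) i
        = ⟪b i, y⟫ := by
      rw [← b.repr_apply_apply]
      rfl
    rw [hc]
    split_ifs with h
    · subst h
      rw [hb0]
      exact abs_le.1 hy1
    · have := abs_real_inner_le_norm (b i) y
      rw [b.norm_eq_one, one_mul] at this
      exact abs_le.1 (this.trans hy2)
  refine (measure_mono hsub).trans ?_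
  have hbox : MeasurableSet box := by
    refine MeasurableSet.univ_pi fun i => ?_
    split_ifs
    · exact measurableSet_Icc
    · exact measurableSet_Icc
  rw [hmp'.measure_preimage_equiv,
    (PiLp.volume_preserving_ofLp (Fin d)).measure_preimage hbox.nullMeasurableSet]
  rw [volume_pi_pi]
  rw [← Finset.mul_prod_erase Finset.univ _ (Finset.mem_univ i0)]
  rw [if_pos rfl, Real.volume_Icc]
  have h2 : ∏ x ∈ Finset.univ.erase i0, volume (if x = i0 then Icc (-t) t else Icc (-1 : ℝ) 1) =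
      ENNReal.ofReal (2 ^ (d - 1)) := by
    rw [Finset.prod_congr rfl (g := fun _ => ENNReal.ofReal 2)]
    · rw [Finset.prod_const, Finset.card_erase_of_mem (Finset.mem_univ _), Finset.card_univ,
        Fintype.card_fin, ENNReal.ofReal_pow (by norm_num)]
    · intro x hx
      rw [if_neg (Finset.ne_of_mem_erase hx), Real.volume_Icc]
      norm_num
  rw [h2, ← ENNReal.ofReal_mul (by linarith)]
  apply ENNReal.ofReal_le_ofReal
  have : (2 : ℝ) ^ d = 2 ^ (d - 1) * 2 := by
    rw [← pow_succ]; congr 1; omega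
  rw [this]
  nlinarith [pow_pos (show (0:ℝ) < 2 by norm_num) (d - 1)]

theorem sph_slab (hd : 0 < d) : ∃ C : ℝ, 0 < C ∧ ∀ a : EuclideanSpace ℝ (Fin d), ‖a‖ = 1 →
    ∀ t : ℝ, 0 ≤ t → (sph d).real {x | |⟪a, x⟫| ≤ t} ≤ C * t := by
  haveI := sph_prob hd
  set c0 := ((volume : Measure (EuclideanSpace ℝ (Fin d))).toSphere univ).toReal with hc0
  have hc0pos : 0 < c0 := ENNReal.toReal_pos (toSphere_univ_ne_zero hd) (measure_ne_top _ _)
  refine ⟨c0⁻¹ * (d * 2 ^ d), by positivity, ?_⟩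
  intro a ha t ht
  have hmeas : MeasurableSet {x : EuclideanSpace ℝ (Fin d) | |⟪a, x⟫| ≤ t} :=
    measurableSet_le (by fun_prop) measurable_const
  have h1 : sph d {x | |⟪a, x⟫| ≤ t} ≤ ENNReal.ofReal (c0⁻¹ * (d * 2 ^ d) * t) := by
    rw [sph_apply hmeas, toSphere_apply' _ (measurable_subtype_coe hmeas)]
    have hsub : Ioo (0 : ℝ) 1 • ((↑) '' (Subtype.val ⁻¹' {x | |⟪a, x⟫| ≤ t} :
      Set (sphere (0 : EuclideanSpace ℝ (Fin d)) 1)) : Set (EuclideanSpace ℝ (Fin d))) ⊆
        {y : EuclideanSpace ℝ (Fin d) | |⟪a, y⟫| ≤ t ∧ ‖y‖ ≤ 1} := by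
      rintro y ⟨r, hr, x, ⟨⟨x', hx'⟩, hx1, hx2⟩, rfl⟩
      simp only at hx2
      subst hx2
      simp only [mem_preimage, mem_setOf_eq] at hx1
      simp only [mem_sphere_iff_norm, sub_zero] at hx'
      constructor
      · simp only
        rw [inner_smul_right, abs_mul, abs_of_pos hr.1]
        calc r * |⟪a, x'⟫| ≤ 1 * |⟪a, x'⟫| :=
              mul_le_mul_of_nonneg_right hr.2.le (abs_nonneg _)
          _ ≤ t := by rw [one_mul]; exact hx1
      · simp only
        rw [norm_smul, hx', mul_one, Real.norm_eq_abs, abs_of_pos hr.1]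
        exact hr.2.le
    have h2 := (measure_mono hsub).trans (slab_aux hd a ha t ht)
    have h3 : (Module.finrank ℝ (EuclideanSpace ℝ (Fin d)) : ℝ≥0∞) = ENNReal.ofReal (d : ℝ) := by
      simp
    have h4 : (((volume : Measure (EuclideanSpace ℝ (Fin d))).toSphere univ))⁻¹ =
        ENNReal.ofReal c0⁻¹ := by
      rw [ENNReal.ofReal_inv_of_pos hc0pos, hc0, ENNReal.ofReal_toReal (measure_ne_top _ _)]
    rw [h3, h4]
    calc ENNReal.ofReal c0⁻¹ * (ENNReal.ofReal (d : ℝ) * _) ≤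
          ENNReal.ofReal c0⁻¹ * (ENNReal.ofReal (d : ℝ) * ENNReal.ofReal (2 ^ d * t)) := by
          gcongr
      _ = _ := by
          rw [← ENNReal.ofReal_mul (by positivity), ← ENNReal.ofReal_mul (by positivity)]
          congr 1; ring
  rw [measureReal_def]
  exact ENNReal.toReal_le_of_le_ofReal (by positivity) h1

theorem sph_sphLike (hd : 0 < d) : SphLike (sph d) :=
  ⟨sph_prob hd, sph_ae, sph_inv, sph_slab hd⟩

end Pool.Agent.Helper36.SphMeas
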