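import Mathlib
import Pool.Agent.Helper36.RealizeAbs
import Pool.Agent.Helper36.SphMeas
set_option autoImplicit false

/-! Realising a fractional 2-colouring of the sphere by a genuine one, uniformly over all
symmetries in lines. -/

namespace Pool.Agent.Helper36.RealizeSph

open MeasureTheory Set Metric SphMeas
open scoped RealInnerProductSpace ENNReal

section
variable {E : Type*} [NormedAddCommGroup E] [InnerProductSpace ℝ E]

/-- symmetry in the line spanned by `n` -/
noncomputable def sig (n : E) : E ≃ₗᵢ[ℝ] E := (ℝ ∙ n).reflection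

lemma sig_apply {n : E} (hn : ‖n‖ = 1) (x : E) : sig n x = (2 * ⟪n, x⟫) • n - x := by
  rw [sig, Submodule.reflection_apply, Submodule.starProjection_unit_singleton ℝ hn,
    two_smul, ← add_smul, two_mul]

lemma sig_dist {n m : E} (hn : ‖n‖ = 1) (hm : ‖m‖ = 1) (x : E) (hx : ‖x‖ = 1) :
    ‖sig n x - sig m x‖ ≤ 4 * ‖n - m‖ := by
  rw [sig_apply hn, sig_apply hm]
  have e : (2 * ⟪n, x⟫) • n - x - ((2 * ⟪m, x⟫) • m - x) =
      (2 * ⟪n, x⟫) • (n - m) + (2 * ⟪n - m, x⟫) • m := by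
    rw [inner_sub_left, mul_sub, sub_smul, smul_sub]; abel
  rw [e]
  refine (norm_add_le _ _).trans ?_
  rw [norm_smul, norm_smul, hm, mul_one]
  have h1 : ‖2 * ⟪n, x⟫‖ ≤ 2 := by
    rw [norm_mul, Real.norm_eq_abs, Real.norm_eq_abs, abs_two]
    have := abs_real_inner_le_norm n x
    rw [hn, hx] at this
    linarith
  have h2 : ‖2 * ⟪n - m, x⟫‖ ≤ 2 * ‖n - m‖ := by
    rw [norm_mul, Real.norm_eq_abs, Real.norm_eq_abs, abs_two]
    have := abs_real_inner_le_norm (n - m) x
    rw [hx] at this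
    linarith
  have h3 := mul_le_mul_of_nonneg_right h1 (norm_nonneg (n - m))
  linarith

lemma sig_symm {n : E} (hn : ‖n‖ = 1) (x y : E) : ⟪sig n x, y⟫ = ⟪x, sig n y⟫ := by
  rw [sig_apply hn, sig_apply hn, inner_sub_left, inner_sub_right, inner_smul_left,
    inner_smul_right]
  simp only [conj_trivial]
  rw [real_inner_comm x n]
  ring

/-- The sign pattern of a point with respect to finitely many hyperplanes. -/
noncomputable def q (N : Finset E) (x : E) : N → Bool := fun k => decide (0 < ⟪(k : E), x⟫)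

lemma q_measurable [MeasurableSpace E] [BorelSpace E] [SecondCountableTopology E]
    (N : Finset E) : Measurable (q N) := by
  rw [measurable_pi_iff]
  intro k
  apply measurable_to_bool
  have : (fun x : E => q N x k) ⁻¹' {true} = {x | 0 < ⟪(k : E), x⟫} := by
    ext x; simp [q]
  rw [this]
  exact measurableSet_lt measurable_const (by fun_prop)

lemma q_diam {N : Finset E} {ε : ℝ} (hN : ∀ u : E, ‖u‖ = 1 → ∃ a ∈ N, ‖u - a‖ ≤ ε)
    {x y : E} (hx : ‖x‖ = 1) (hy : ‖y‖ = 1) (hxy : q N x = q N y) : ‖x - y‖ ≤ 2 * ε := by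
  by_contra hcon
  push Not at hcon
  set D := ‖x - y‖ with hD
  have hε : 0 ≤ ε := by
    obtain ⟨a, -, ha⟩ := hN x hx
    exact (norm_nonneg _).trans ha
  have hDpos : 0 < D := by linarith
  obtain ⟨a, haN, ha⟩ := hN (D⁻¹ • (x - y)) (by
    rw [norm_smul, norm_inv, Real.norm_eq_abs, abs_of_pos hDpos, ← hD]
    exact inv_mul_cancel₀ hDpos.ne')
  have hx2 : ⟪x, x⟫ = 1 := by rw [real_inner_self_eq_norm_sq, hx]; norm_num
  have hy2 : ⟪y, y⟫ = 1 := by rw [real_inner_self_eq_norm_sq, hy]; norm_num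
  have hD2 : D ^ 2 = 2 - 2 * ⟪x, y⟫ := by
    rw [hD, ← real_inner_self_eq_norm_sq, inner_sub_left, inner_sub_right, inner_sub_right,
      hx2, hy2, real_inner_comm x y]; ring
  have h1 : ⟪D⁻¹ • (x - y), x⟫ = D / 2 := by
    rw [inner_smul_left, inner_sub_left, hx2, real_inner_comm]
    simp only [conj_trivial]
    have : 1 - ⟪x, y⟫ = D ^ 2 / 2 := by rw [hD2]; ring
    rw [this]; field_simp
  have h2 : ⟪D⁻¹ • (x - y), y⟫ = -(D / 2) := by
    rw [inner_smul_left, inner_sub_left, hy2]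
    simp only [conj_trivial]
    have : ⟪x, y⟫ - 1 = -(D ^ 2 / 2) := by rw [hD2]; ring
    rw [this]; field_simp
  have h3 : 0 < ⟪a, x⟫ := by
    have e : ⟪a, x⟫ = ⟪D⁻¹ • (x - y), x⟫ - ⟪D⁻¹ • (x - y) - a, x⟫ := by
      rw [← inner_sub_left]; congr 1; abel
    have k := (abs_le.1 (abs_real_inner_le_norm (D⁻¹ • (x - y) - a) x)).2
    rw [hx, mul_one] at k
    rw [e, h1]; linarith
  have h4 : ⟪a, y⟫ < 0 := by
    have e : ⟪a, y⟫ = ⟪D⁻¹ • (x - y), y⟫ - ⟪D⁻¹ • (x - y) - a, y⟫ := by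
      rw [← inner_sub_left]; congr 1; abel
    have k := (abs_le.1 (abs_real_inner_le_norm (D⁻¹ • (x - y) - a) y)).1
    rw [hy, mul_one] at k
    rw [e, h2]; linarith
  have h5 := congrFun hxy ⟨a, haN⟩
  simp only [q, decide_eq_decide] at h5
  exact absurd (h5.1 h3) (by linarith)

end

variable {d : ℕ}

lemma exists_perp (hd : 2 ≤ d) (n : EuclideanSpace ℝ (Fin d)) :
    ∃ a : EuclideanSpace ℝ (Fin d), ‖a‖ = 1 ∧ ⟪a, n⟫ = 0 := by
  have h1 : (ℝ ∙ n)ᗮ ≠ ⊥ := by
    intro h
    rw [Submodule.orthogonal_eq_bot_iff] at h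
    have h2 := finrank_span_finset_le_card (R := ℝ) ({n} : Finset (EuclideanSpace ℝ (Fin d)))
    rw [Finset.coe_singleton, Finset.card_singleton, Set.finrank, h, finrank_top,
      finrank_euclideanSpace_fin] at h2
    omega
  obtain ⟨b, hb, hb0⟩ := Submodule.exists_mem_ne_zero_of_ne_bot h1
  refine ⟨‖b‖⁻¹ • b, ?_, ?_⟩
  · rw [norm_smul, norm_inv, norm_norm]
    exact inv_mul_cancel₀ (norm_ne_zero_iff.2 hb0)
  · rw [inner_smul_left, real_inner_comm, Submodule.mem_orthogonal_singleton_iff_inner_right.1 hb]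
    simp

lemma exists_net (R : ℕ) (hR : 0 < R) : ∃ N : Finset (EuclideanSpace ℝ (Fin d)),
    N.card ≤ (2 * R + 1) ^ d ∧ (∀ a ∈ N, ‖a‖ = 1) ∧
      ∀ u : EuclideanSpace ℝ (Fin d), ‖u‖ = 1 → ∃ a ∈ N, ‖u - a‖ ≤ √d / R := by
  classical
  set code : EuclideanSpace ℝ (Fin d) → (Fin d → ℤ) := fun u i => ⌊(R : ℝ) * u i⌋ with hcode
  set B : Finset (Fin d → ℤ) := Fintype.piFinset (fun _ => Finset.Icc (-(R : ℤ)) R) with hB
  have hRpos : (0 : ℝ) < R := by exact_mod_cast hR
  have hcodeB : ∀ u, ‖u‖ = 1 → code u ∈ B := by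
    intro u hu
    rw [hB, Fintype.mem_piFinset]
    intro i
    have h1 : |u i| ≤ 1 := by
      have := PiLp.norm_apply_le u i
      rw [hu] at this
      exact this
    have h2 := abs_le.1 h1
    rw [Finset.mem_Icc, hcode]
    simp only
    constructor
    · apply Int.le_floor.2
      push_cast
      nlinarith
    · have : (R : ℝ) * u i ≤ R := by nlinarith
      have := Int.floor_le_floor this
      rwa [Int.floor_natCast] at this
  set S : Finset (Fin d → ℤ) := B.filter (fun b => ∃ u, ‖u‖ = 1 ∧ code u = b) with hS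
  have hrep : ∀ b : Fin d → ℤ, ∃ u : EuclideanSpace ℝ (Fin d), b ∈ S → (‖u‖ = 1 ∧ code u = b) := by
    intro b
    by_cases h : b ∈ S
    · rw [hS, Finset.mem_filter] at h
      obtain ⟨u, hu⟩ := h.2
      exact ⟨u, fun _ => hu⟩
    · exact ⟨0, fun h' => absurd h' h⟩
  choose rep hrep using hrep
  refine ⟨S.image rep, ?_, ?_, ?_⟩
  · refine Finset.card_image_le.trans ((Finset.card_filter_le _ _).trans ?_)
    rw [hB, Fintype.card_piFinset]
    simp only [Int.card_Icc, Finset.prod_const, Finset.card_univ, Fintype.card_fin]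
    apply Nat.pow_le_pow_left
    omega
  · intro a ha
    obtain ⟨b, hb, rfl⟩ := Finset.mem_image.1 ha
    exact (hrep b hb).1
  · intro u hu
    have hb : code u ∈ S := by
      rw [hS, Finset.mem_filter]
      exact ⟨hcodeB u hu, u, hu, rfl⟩
    refine ⟨rep (code u), Finset.mem_image_of_mem _ hb, ?_⟩
    have h1 := (hrep _ hb).2
    rw [EuclideanSpace.norm_eq]
    have h2 : √(∑ i, ‖(u - rep (code u)) i‖ ^ 2) ≤ √(d * (1 / R) ^ 2) := by
      apply Real.sqrt_le_sqrt
      have : ∀ i ∈ (Finset.univ : Finset (Fin d)),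
          ‖(u - rep (code u)) i‖ ^ 2 ≤ (1 / (R : ℝ)) ^ 2 := by
        intro i _
        apply pow_le_pow_left₀ (norm_nonneg _)
        have h3 := congrFun h1 i
        simp only [hcode] at h3
        have h4 := Int.abs_sub_lt_one_of_floor_eq_floor h3
        rw [← mul_sub, abs_mul, abs_of_pos hRpos] at h4
        rw [PiLp.sub_apply, Real.norm_eq_abs, abs_sub_comm, le_div_iff₀ hRpos, mul_comm]
        exact h4.le
      refine (Finset.sum_le_sum this).trans (le_of_eq ?_)
      rw [Finset.sum_const, Finset.card_univ, Fintype.card_fin, nsmul_eq_mul]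
    refine h2.trans (le_of_eq ?_)
    rw [Real.sqrt_mul (by positivity), Real.sqrt_sq (by positivity)]
    ring

lemma exp_beats (K2 γ : ℝ) (hγ : 0 < γ) (m : ℕ) :
    ∃ R0 : ℕ, ∀ R : ℕ, R0 ≤ R → K2 * (R : ℝ) ^ m < Real.exp (γ * R) := by
  have h1 := Real.tendsto_pow_mul_exp_neg_atTop_nhds_zero m
  have h2 : Filter.Tendsto (fun R : ℕ => γ * (R : ℝ)) Filter.atTop Filter.atTop :=
    tendsto_natCast_atTop_atTop.const_mul_atTop hγ
  have h3 := (h1.comp h2).const_mul (K2 / γ ^ m)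
  rw [mul_zero] at h3
  have h4 := h3.eventually (gt_mem_nhds (show (0 : ℝ) < 1 by norm_num))
  obtain ⟨R0, hR0⟩ := Filter.eventually_atTop.1 h4
  refine ⟨R0, fun R hR => ?_⟩
  have h5 := hR0 R hR
  simp only [Function.comp_apply] at h5
  have h6 : K2 / γ ^ m * ((γ * R) ^ m * Real.exp (-(γ * R))) =
      K2 * (R : ℝ) ^ m * (Real.exp (γ * R))⁻¹ := by
    rw [Real.exp_neg, mul_pow]; field_simp
  rw [h6, ← div_eq_mul_inv, div_lt_one (Real.exp_pos _)] at h5
  exact h5


lemma real_mono_unit {μ : Measure (EuclideanSpace ℝ (Fin d))} (hμ : SphLike μ)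
    {s t : Set (EuclideanSpace ℝ (Fin d))} (h : ∀ x, ‖x‖ = 1 → x ∈ s → x ∈ t) :
    μ.real s ≤ μ.real t := by
  have := hμ.prob
  rw [measureReal_def, measureReal_def]
  refine ENNReal.toReal_mono (measure_ne_top _ _) (measure_mono_ae ?_)
  filter_upwards [hμ.ae_norm] with x hx hxs
  exact h x hx hxs

theorem realize (hd : 2 ≤ d) (μ : Measure (EuclideanSpace ℝ (Fin d))) (hμ : SphLike μ)
    (h : EuclideanSpace ℝ (Fin d) → ℝ) (hc : Continuous h)
    (h01 : ∀ x, ‖x‖ = 1 → h x ∈ Icc (0 : ℝ) 1) (κ0 : ℝ)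
    (hκ1 : ∀ n, ‖n‖ = 1 → ∫ x, h x * h (sig n x) ∂μ ≤ κ0)
    (hκ2 : ∀ n, ‖n‖ = 1 → ∫ x, (1 - h x) * (1 - h (sig n x)) ∂μ ≤ κ0)
    (δ : ℝ) (hδ : 0 < δ) :
    ∃ c : EuclideanSpace ℝ (Fin d) → Bool, Measurable c ∧
      ∀ n, ‖n‖ = 1 → ∀ i, μ.real {x | c x = i ∧ c (sig n x) = i} ≤ κ0 + δ := by
  classical
  have := hμ.prob
  obtain ⟨C, hC, hslab⟩ := hμ.slab
  have hd0 : (0 : ℝ) < d := by
    have : 0 < d := by omega
    exact_mod_cast this
  set D := √(d : ℝ) with hD
  have hDpos : 0 < D := Real.sqrt_pos.2 hd0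
  -- uniform continuity
  obtain ⟨ω, hω, hωh⟩ : ∃ ω > 0, ∀ x y : EuclideanSpace ℝ (Fin d), ‖x‖ = 1 → ‖y‖ = 1 →
      ‖x - y‖ < ω → |h x - h y| ≤ δ / 8 := by
    have hcomp : IsCompact (sphere (0 : EuclideanSpace ℝ (Fin d)) 1) := isCompact_sphere 0 1
    have huc := hcomp.uniformContinuousOn_of_continuous hc.continuousOn
    rw [Metric.uniformContinuousOn_iff] at huc
    obtain ⟨ω, hω, hω2⟩ := huc (δ / 8) (by linarith)
    refine ⟨ω, hω, fun x y hx hy hxy => ?_⟩
    have := hω2 x (by simpa using hx) y (by simpa using hy) (by rwa [dist_eq_norm])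
    rw [Real.dist_eq] at this
    exact this.le
  -- parameters
  set t := δ / 8 with ht
  have htpos : 0 < t := by positivity
  set γ := t ^ 2 / (32 * C * D) with hγ
  have hγpos : 0 < γ := by positivity
  set K1 := 32 * C * D / δ with hK1
  have hK1pos : 0 < K1 := by positivity
  set K2 := 2 * (2 * K1 * 3 ^ d + 3) ^ d with hK2
  obtain ⟨R0, hR0⟩ := exp_beats K2 γ hγpos (d * d)
  obtain ⟨R1, hR1⟩ := exists_nat_gt (2 * D / ω)
  obtain ⟨R2, hR2⟩ := exists_nat_gt (8 * C * D / δ)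
  set R : ℕ := R0 + R1 + R2 + 1 with hRdef
  have hRpos : 0 < R := by omega
  have hRpos' : (0 : ℝ) < R := by exact_mod_cast hRpos
  have hR1' : (R1 : ℝ) ≤ R := by exact_mod_cast (by omega : R1 ≤ R)
  have hR2' : (R2 : ℝ) ≤ R := by exact_mod_cast (by omega : R2 ≤ R)
  have hR1'' : (1 : ℝ) ≤ R := by exact_mod_cast hRpos
  set ε := D / R with hε
  have hεpos : 0 < ε := by positivity
  have hεω : 2 * ε < ω := by
    rw [div_lt_iff₀ hω] at hR1
    have : 2 * D < R * ω := lt_of_lt_of_le hR1 (mul_le_mul_of_nonneg_right hR1' hω.le)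
    rw [hε, ← mul_div_assoc, div_lt_iff₀ hRpos']
    linarith
  have hεδ : C * ε ≤ δ / 8 := by
    rw [div_lt_iff₀ hδ] at hR2
    have : 8 * C * D < R * δ := lt_of_lt_of_le hR2 (mul_le_mul_of_nonneg_right hR2' hδ.le)
    rw [hε, ← mul_div_assoc, div_le_iff₀ hRpos']
    linarith
  obtain ⟨N, hNcard, hN1, hN⟩ := exists_net (d := d) R hRpos
  set R' : ℕ := ⌈K1 * (2 * R + 1) ^ d⌉₊ with hR'
  have hR'ge : K1 * (2 * R + 1) ^ d ≤ R' := Nat.le_ceil _
  have hR'pos' : (0 : ℝ) < R' := lt_of_lt_of_le (by positivity) hR'ge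
  have hR'pos : 0 < R' := by exact_mod_cast hR'pos'
  obtain ⟨N', hN'card, hN'1, hN'⟩ := exists_net (d := d) R' hR'pos
  -- cells
  set qq : EuclideanSpace ℝ (Fin d) → (N → Bool) := q N with hqq
  have hqm : Measurable qq := q_measurable N
  have hdiam : ∀ x y, ‖x‖ = 1 → ‖y‖ = 1 → qq x = qq y → ‖x - y‖ ≤ 2 * ε :=
    fun x y hx hy hxy => q_diam hN hx hy hxy
  have hrep : ∀ j : N → Bool, ∃ v : ℝ, v ∈ Icc (0 : ℝ) 1 ∧
      ∀ x, ‖x‖ = 1 → qq x = j → |v - h x| ≤ δ / 8 := by
    intro j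
    by_cases hj : ∃ y, ‖y‖ = 1 ∧ qq y = j
    · obtain ⟨y, hy, hyj⟩ := hj
      refine ⟨h y, h01 y hy, fun x hx hxj => hωh y x hy hx ?_⟩
      exact lt_of_le_of_lt (hdiam y x hy hx (hyj.trans hxj.symm)) hεω
    · refine ⟨0, by simp, fun x hx hxj => absurd ⟨x, hx, hxj⟩ hj⟩
  choose p hp1 hp2 using hrep
  obtain ⟨c, hcc⟩ := RealizeAbs.realize_abs (μ := μ) (K := N') hqm
    (fun k => (sig (k : EuclideanSpace ℝ (Fin d)) : EuclideanSpace ℝ (Fin d) → _))
    (fun k => hμ.inv _) p hp1 h hc.measurable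
    (by filter_upwards [hμ.ae_norm] with x hx using h01 x hx) (δ / 8)
    (by filter_upwards [hμ.ae_norm] with x hx using hp2 _ x hx rfl)
    (C * (2 * ε)) (δ / 8)
    (by
      intro j
      by_cases hj : ∃ y, ‖y‖ = 1 ∧ qq y = j
      · obtain ⟨y, hy, hyj⟩ := hj
        obtain ⟨a, ha1, ha2⟩ := exists_perp hd y
        refine le_trans (real_mono_unit hμ ?_) (hslab a ha1 (2 * ε) (by positivity))
        intro x hx hxj
        have h1 := hdiam x y hx hy (Eq.trans hxj hyj.symm)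
        have h2 : ⟪a, x⟫ = ⟪a, x - y⟫ := by rw [inner_sub_right, ha2, sub_zero]
        show |⟪a, x⟫| ≤ 2 * ε
        rw [h2]
        refine (abs_real_inner_le_norm _ _).trans ?_
        rw [ha1, one_mul]; exact h1
      · have : μ.real (qq ⁻¹' {j}) ≤ μ.real ∅ :=
          real_mono_unit hμ fun x hx hxj => absurd ⟨x, hx, hxj⟩ hj
        rw [measureReal_empty] at this
        exact this.trans (by positivity))
    (by
      intro k
      obtain ⟨a, ha1, ha2⟩ := exists_perp hd (k : EuclideanSpace ℝ (Fin d))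
      have hk1 := hN'1 k k.2
      refine le_trans (real_mono_unit hμ ?_) ((hslab a ha1 ε hεpos.le).trans hεδ)
      intro x hx hxj
      have h1 := hdiam x (sig (k : EuclideanSpace ℝ (Fin d)) x) hx
        (by rw [LinearIsometryEquiv.norm_map]; exact hx) hxj
      have h2 : 2 * ⟪a, x⟫ = ⟪a, x - sig (k : EuclideanSpace ℝ (Fin d)) x⟫ := by
        rw [sig_apply hk1, inner_sub_right, inner_sub_right, inner_smul_right, ha2]; ring
      show |⟪a, x⟫| ≤ ε
      have h3 : |2 * ⟪a, x⟫| ≤ 2 * ε := by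
        rw [h2]
        refine (abs_real_inner_le_norm _ _).trans ?_
        rw [ha1, one_mul]; exact h1
      rw [abs_mul, abs_two] at h3
      linarith)
    (t * R / (16 * C * D)) t (by positivity)
    (by
      have e1 : (t * R / (16 * C * D)) ^ 2 * (4 * (C * (2 * ε))) = γ * R := by
        rw [hγ, hε]; field_simp; ring
      have e2 : t * R / (16 * C * D) * t = γ * R + γ * R := by
        rw [hγ]; field_simp; ring
      rw [e1, e2, Real.exp_add]
      apply mul_lt_mul_of_pos_right _ (Real.exp_pos _)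
      refine lt_of_le_of_lt ?_ (hR0 R (by omega))
      have c1 : (Fintype.card N' : ℝ) ≤ (2 * R' + 1) ^ d := by
        rw [Fintype.card_coe]; exact_mod_cast hN'card
      have c2 : (2 * (R' : ℝ) + 1) ≤ (2 * K1 * 3 ^ d + 3) * R ^ d := by
        have c3 : (R' : ℝ) ≤ K1 * (2 * R + 1) ^ d + 1 := (Nat.ceil_lt_add_one (by positivity)).le
        have c4 : ((2 * R + 1 : ℝ)) ^ d ≤ 3 ^ d * R ^ d := by
          rw [← mul_pow]
          exact pow_le_pow_left₀ (by positivity) (by linarith) d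
        have c5 : (1 : ℝ) ≤ (R : ℝ) ^ d := one_le_pow₀ hR1''
        have c6 := mul_le_mul_of_nonneg_left c4 hK1pos.le
        nlinarith
      have c7 : (2 * (R' : ℝ) + 1) ^ d ≤ (2 * K1 * 3 ^ d + 3) ^ d * (R : ℝ) ^ (d * d) := by
        rw [pow_mul, ← mul_pow]
        exact pow_le_pow_left₀ (by positivity) c2 d
      rw [hK2]
      linarith)
  refine ⟨fun x => c (qq x), (Measurable.of_discrete (f := c)).comp hqm, ?_⟩
  intro n hn i
  obtain ⟨n', hn'N, hn'⟩ := hN' n hn
  have hn'1 := hN'1 n' hn'N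
  -- the bad set
  have hbad : μ.real {x | qq (sig n x) ≠ qq (sig n' x)} ≤ δ / 8 := by
    have hsub : μ.real {x | qq (sig n x) ≠ qq (sig n' x)} ≤
        μ.real (⋃ k ∈ N, {x | |⟪sig n k, x⟫| ≤ 4 * (D / R')}) := by
      refine real_mono_unit hμ fun x hx hxq => ?_
      have : ∃ k : N, qq (sig n x) k ≠ qq (sig n' x) k := by
        by_contra hcon
        push Not at hcon
        exact hxq (funext hcon)
      obtain ⟨k, hk⟩ := this
      simp only [mem_iUnion]
      refine ⟨k, k.2, ?_⟩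
      show |⟪sig n (k : EuclideanSpace ℝ (Fin d)), x⟫| ≤ 4 * (D / R')
      rw [sig_symm hn]
      have hk1 := hN1 k k.2
      have hdist : |⟪(k : EuclideanSpace ℝ (Fin d)), sig n x⟫ -
          ⟪(k : EuclideanSpace ℝ (Fin d)), sig n' x⟫| ≤ 4 * (D / R') := by
        rw [← inner_sub_right]
        refine (abs_real_inner_le_norm _ _).trans ?_
        rw [hk1, one_mul]
        refine (sig_dist hn hn'1 x hx).trans ?_
        linarith
      simp only [hqq, q, ne_eq, decide_eq_decide] at hk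
      rw [abs_le] at hdist ⊢
      by_cases hpos : 0 < ⟪(k : EuclideanSpace ℝ (Fin d)), sig n x⟫
      · have : ¬ 0 < ⟪(k : EuclideanSpace ℝ (Fin d)), sig n' x⟫ := fun h' => hk ⟨fun _ => h', fun _ => hpos⟩
        constructor <;> linarith
      · have : 0 < ⟪(k : EuclideanSpace ℝ (Fin d)), sig n' x⟫ := by
          by_contra h'
          exact hk ⟨fun h'' => absurd h'' hpos, fun h'' => absurd h'' h'⟩
        constructor <;> linarith
    refine hsub.trans ((measureReal_biUnion_finset_le N _).trans ?_)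
    calc ∑ k ∈ N, μ.real {x | |⟪sig n k, x⟫| ≤ 4 * (D / R')}
        ≤ ∑ k ∈ N, C * (4 * (D / R')) := by
          refine Finset.sum_le_sum fun k hk => hslab _ ?_ _ (by positivity)
          rw [LinearIsometryEquiv.norm_map]; exact hN1 k hk
      _ = N.card * (C * (4 * (D / R'))) := by rw [Finset.sum_const, nsmul_eq_mul]
      _ ≤ (2 * R + 1) ^ d * (C * (4 * (D / R'))) := by
          apply mul_le_mul_of_nonneg_right _ (by positivity)
          exact_mod_cast hNcard
      _ ≤ δ / 8 := by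
          have e : (2 * (R : ℝ) + 1) ^ d * (C * (4 * (D / R'))) =
              (2 * (R : ℝ) + 1) ^ d * (4 * C * D) / R' := by ring
          rw [e, div_le_iff₀ hR'pos']
          have e2 := mul_le_mul_of_nonneg_left hR'ge (show 0 ≤ δ / 8 by linarith)
          refine le_trans (le_of_eq ?_) e2
          rw [hK1]; field_simp; ring
  have hbase : μ.real {x | c (qq x) = i ∧ c (qq (sig n' x)) = i} ≤ κ0 + 4 * (δ / 8) := by
    have := hcc ⟨n', hn'N⟩
    cases i
    · have h1 := this.2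
      have h2 := hκ2 n' hn'1
      simp only at h1
      linarith
    · have h1 := this.1
      have h2 := hκ1 n' hn'1
      simp only at h1
      linarith
  have hfin : μ.real {x | c (qq x) = i ∧ c (qq (sig n x)) = i} ≤
      μ.real ({x | c (qq x) = i ∧ c (qq (sig n' x)) = i} ∪ {x | qq (sig n x) ≠ qq (sig n' x)}) := by
    refine real_mono_unit hμ fun x _ hx => ?_
    by_cases h' : qq (sig n x) = qq (sig n' x)
    · left
      refine ⟨hx.1, ?_⟩
      rw [← h']; exact hx.2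
    · right; exact h'
  have hun := measureReal_union_le (μ := μ) {x | c (qq x) = i ∧ c (qq (sig n' x)) = i}
    {x | qq (sig n x) ≠ qq (sig n' x)}
  linarith

end Pool.Agent.Helper36.RealizeSph
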