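import Mathlib
import Pool.Agent.Helper36.RealizeSph
set_option autoImplicit false

/-! Orientation preserving involutions of `ℝ³` are half-turns. -/

namespace Pool.Agent.Helper36.HalfTurn
open RealizeSph Module
open scoped RealInnerProductSpace

section
variable {E : Type*} [NormedAddCommGroup E] [InnerProductSpace ℝ E]

/-- fixed space -/
def fixSp (g : E ≃ₗᵢ[ℝ] E) : Submodule ℝ E where
  carrier := {x | g x = x}
  add_mem' := by
    intro a b ha hb
    show g (a + b) = a + b
    rw [map_add]; exact congrArg₂ _ ha hb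
  zero_mem' := map_zero g
  smul_mem' := by
    intro c x hx
    show g (c • x) = c • x
    rw [map_smul]; exact congrArg _ hx

lemma eq_reflection [FiniteDimensional ℝ E] (g : E ≃ₗᵢ[ℝ] E) (hinv : ∀ x, g (g x) = x) :
    g = (fixSp g).reflection := by
  ext x
  have key : ∀ v ∈ (fixSp g)ᗮ, g v = -v := by
    intro v hv
    have h1 : v + g v ∈ fixSp g := by
      show g (v + g v) = v + g v
      rw [map_add, hinv]; abel
    have h2 : v + g v ∈ (fixSp g)ᗮ := by
      rw [Submodule.mem_orthogonal] at hv ⊢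
      intro k hk
      have hk' : g k = k := hk
      rw [inner_add_right, hv k hk, zero_add]
      calc ⟪k, g v⟫ = ⟪g k, g v⟫ := by rw [hk']
        _ = ⟪k, v⟫ := g.inner_map_map k v
        _ = 0 := hv k hk
    have h3 : v + g v = 0 := by
      have := Submodule.inner_right_of_mem_orthogonal h1 h2
      exact inner_self_eq_zero.1 this
    exact (neg_eq_of_add_eq_zero_right h3).symm
  have hp : g ((fixSp g).starProjection x) = (fixSp g).starProjection x :=
    (fixSp g).starProjection_apply_mem x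
  have hq := key _ ((fixSp g).sub_starProjection_mem_orthogonal x)
  rw [Submodule.reflection_apply]
  have : g x = g ((fixSp g).starProjection x) + g (x - (fixSp g).starProjection x) := by
    rw [← map_add]; congr 1; abel
  rw [this, hp, hq, two_smul]; abel

end

theorem half_turn (g : EuclideanSpace ℝ (Fin 3) ≃ₗᵢ[ℝ] EuclideanSpace ℝ (Fin 3))
    (hne : g ≠ LinearIsometryEquiv.refl ℝ (EuclideanSpace ℝ (Fin 3)))
    (hinv : ∀ x, g (g x) = x)
    (hdet : LinearMap.det
      (g.toLinearEquiv : EuclideanSpace ℝ (Fin 3) →ₗ[ℝ] EuclideanSpace ℝ (Fin 3)) = 1) :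
    ∃ n : EuclideanSpace ℝ (Fin 3), ‖n‖ = 1 ∧ g = sig n := by
  have h1 := eq_reflection g hinv
  set K := fixSp g with hK
  have h2 : LinearMap.det
      (g.toLinearEquiv : EuclideanSpace ℝ (Fin 3) →ₗ[ℝ] EuclideanSpace ℝ (Fin 3)) =
      (-1) ^ finrank ℝ Kᗮ := by
    rw [h1]; exact K.det_reflection
  rw [hdet] at h2
  have h3 : finrank ℝ K + finrank ℝ Kᗮ = 3 := by
    rw [K.finrank_add_finrank_orthogonal, finrank_euclideanSpace_fin]
  have h4 : Even (finrank ℝ Kᗮ) := by
    by_contra hodd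
    rw [Nat.not_even_iff_odd] at hodd
    rw [hodd.neg_one_pow] at h2
    norm_num at h2
  have h5 : finrank ℝ Kᗮ ≠ 0 := by
    intro h0
    have h6 : Kᗮ = ⊥ := Submodule.finrank_eq_zero.1 h0
    rw [Submodule.orthogonal_eq_bot_iff] at h6
    apply hne
    rw [h1]
    ext x : 1
    have : x ∈ K := by rw [h6]; trivial
    rw [Submodule.reflection_mem_subspace_eq_self this]
    rfl
  have h7 : finrank ℝ K = 1 := by
    obtain ⟨m, hm⟩ := h4
    omega
  obtain ⟨v, hv0, hv⟩ := finrank_eq_one_iff'.1 h7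
  have hv0' : (v : EuclideanSpace ℝ (Fin 3)) ≠ 0 := fun h => hv0 (Subtype.ext h)
  have hnv : ‖(v : EuclideanSpace ℝ (Fin 3))‖ ≠ 0 := norm_ne_zero_iff.2 hv0'
  refine ⟨‖(v : EuclideanSpace ℝ (Fin 3))‖⁻¹ • (v : EuclideanSpace ℝ (Fin 3)), ?_, ?_⟩
  · rw [norm_smul, norm_inv, norm_norm]; exact inv_mul_cancel₀ hnv
  · have hspan : K = Submodule.span ℝ
        {‖(v : EuclideanSpace ℝ (Fin 3))‖⁻¹ • (v : EuclideanSpace ℝ (Fin 3))} := by
      apply le_antisymm
      · intro w hw
        obtain ⟨c, hc⟩ := hv ⟨w, hw⟩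
        have hc' : c • (v : EuclideanSpace ℝ (Fin 3)) = w := congrArg Subtype.val hc
        rw [Submodule.mem_span_singleton]
        refine ⟨c * ‖(v : EuclideanSpace ℝ (Fin 3))‖, ?_⟩
        rw [smul_smul, mul_assoc, mul_inv_cancel₀ hnv, mul_one, hc']
      · rw [Submodule.span_singleton_le_iff_mem]
        exact K.smul_mem _ v.2
    unfold sig
    rw [h1]
    congr 1

end Pool.Agent.Helper36.HalfTurn
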