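import Mathlib
import Pool.Agent.Helper36.RealizeSph
set_option autoImplicit false

/-! Moments of products of linear forms on the sphere, and the resulting criterion. -/

namespace Pool.Agent.Helper36.Moment

open MeasureTheory Set Metric SphMeas RealizeSph
open scoped RealInnerProductSpace ENNReal

lemma trinom3 (a b c : ℝ) (A : ℕ → ℝ)
    (h : ∀ s : ℝ, ∑ j ∈ Finset.range 7, A j * s ^ j = (a * s ^ 2 + b * s + c) ^ 3) :
    A 3 = 1 * b ^ 3 + 6 * a ^ 1 * b ^ 1 * c ^ 1 := by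
  have hP : (∑ j ∈ Finset.range 7, Polynomial.C (A j) * Polynomial.X ^ j : Polynomial ℝ) =
      Polynomial.C (1 * c ^ 3) * Polynomial.X ^ 0 +
      Polynomial.C (3 * b ^ 1 * c ^ 2) * Polynomial.X ^ 1 +
      Polynomial.C (3 * b ^ 2 * c ^ 1 + 3 * a ^ 1 * c ^ 2) * Polynomial.X ^ 2 +
      Polynomial.C (1 * b ^ 3 + 6 * a ^ 1 * b ^ 1 * c ^ 1) * Polynomial.X ^ 3 +
      Polynomial.C (3 * a ^ 1 * b ^ 2 + 3 * a ^ 2 * c ^ 1) * Polynomial.X ^ 4 +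
      Polynomial.C (3 * a ^ 2 * b ^ 1) * Polynomial.X ^ 5 +
      Polynomial.C (1 * a ^ 3) * Polynomial.X ^ 6 := by
    apply Polynomial.funext
    intro s
    rw [Polynomial.eval_finsetSum]
    simp only [Polynomial.eval_add, Polynomial.eval_mul, Polynomial.eval_C, Polynomial.eval_pow,
      Polynomial.eval_X]
    rw [h s]; ring
  have h2 := congrArg (fun P : Polynomial ℝ => P.coeff 3) hP
  simp only [Polynomial.finsetSum_coeff, Polynomial.coeff_C_mul_X_pow, Polynomial.coeff_add] at h2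
  rw [Finset.sum_ite_eq] at h2
  simpa using h2

lemma trinom7 (a b c : ℝ) (A : ℕ → ℝ)
    (h : ∀ s : ℝ, ∑ j ∈ Finset.range 15, A j * s ^ j = (a * s ^ 2 + b * s + c) ^ 7) :
    A 7 = 1 * b ^ 7 + 42 * a ^ 1 * b ^ 5 * c ^ 1 + 210 * a ^ 2 * b ^ 3 * c ^ 2 + 140 * a ^ 3 * b ^ 1 * c ^ 3 := by
  have hP : (∑ j ∈ Finset.range 15, Polynomial.C (A j) * Polynomial.X ^ j : Polynomial ℝ) =
      Polynomial.C (1 * c ^ 7) * Polynomial.X ^ 0 +
      Polynomial.C (7 * b ^ 1 * c ^ 6) * Polynomial.X ^ 1 +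
      Polynomial.C (21 * b ^ 2 * c ^ 5 + 7 * a ^ 1 * c ^ 6) * Polynomial.X ^ 2 +
      Polynomial.C (35 * b ^ 3 * c ^ 4 + 42 * a ^ 1 * b ^ 1 * c ^ 5) * Polynomial.X ^ 3 +
      Polynomial.C (35 * b ^ 4 * c ^ 3 + 105 * a ^ 1 * b ^ 2 * c ^ 4 + 21 * a ^ 2 * c ^ 5) * Polynomial.X ^ 4 +
      Polynomial.C (21 * b ^ 5 * c ^ 2 + 140 * a ^ 1 * b ^ 3 * c ^ 3 + 105 * a ^ 2 * b ^ 1 * c ^ 4) * Polynomial.X ^ 5 +
      Polynomial.C (7 * b ^ 6 * c ^ 1 + 105 * a ^ 1 * b ^ 4 * c ^ 2 + 210 * a ^ 2 * b ^ 2 * c ^ 3 + 35 * a ^ 3 * c ^ 4) * Polynomial.X ^ 6 +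
      Polynomial.C (1 * b ^ 7 + 42 * a ^ 1 * b ^ 5 * c ^ 1 + 210 * a ^ 2 * b ^ 3 * c ^ 2 + 140 * a ^ 3 * b ^ 1 * c ^ 3) * Polynomial.X ^ 7 +
      Polynomial.C (7 * a ^ 1 * b ^ 6 + 105 * a ^ 2 * b ^ 4 * c ^ 1 + 210 * a ^ 3 * b ^ 2 * c ^ 2 + 35 * a ^ 4 * c ^ 3) * Polynomial.X ^ 8 +
      Polynomial.C (21 * a ^ 2 * b ^ 5 + 140 * a ^ 3 * b ^ 3 * c ^ 1 + 105 * a ^ 4 * b ^ 1 * c ^ 2) * Polynomial.X ^ 9 +
      Polynomial.C (35 * a ^ 3 * b ^ 4 + 105 * a ^ 4 * b ^ 2 * c ^ 1 + 21 * a ^ 5 * c ^ 2) * Polynomial.X ^ 10 +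
      Polynomial.C (35 * a ^ 4 * b ^ 3 + 42 * a ^ 5 * b ^ 1 * c ^ 1) * Polynomial.X ^ 11 +
      Polynomial.C (21 * a ^ 5 * b ^ 2 + 7 * a ^ 6 * c ^ 1) * Polynomial.X ^ 12 +
      Polynomial.C (7 * a ^ 6 * b ^ 1) * Polynomial.X ^ 13 +
      Polynomial.C (1 * a ^ 7) * Polynomial.X ^ 14 := by
    apply Polynomial.funext
    intro s
    rw [Polynomial.eval_finsetSum]
    simp only [Polynomial.eval_add, Polynomial.eval_mul, Polynomial.eval_C, Polynomial.eval_pow,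
      Polynomial.eval_X]
    rw [h s]; ring
  have h2 := congrArg (fun P : Polynomial ℝ => P.coeff 7) hP
  simp only [Polynomial.finsetSum_coeff, Polynomial.coeff_C_mul_X_pow, Polynomial.coeff_add] at h2
  rw [Finset.sum_ite_eq] at h2
  simpa using h2

variable {d : ℕ} {μ : Measure (EuclideanSpace ℝ (Fin d))}

lemma integrable_pow (hμ : SphLike μ) (a b : EuclideanSpace ℝ (Fin d)) (i j : ℕ) :
    Integrable (fun x => ⟪a, x⟫ ^ i * ⟪b, x⟫ ^ j) μ := by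
  have := hμ.prob
  refine Integrable.of_bound ?_ (‖a‖ ^ i * ‖b‖ ^ j) ?_
  · exact Continuous.aestronglyMeasurable (by fun_prop)
  · filter_upwards [hμ.ae_norm] with x hx
    rw [norm_mul, norm_pow, norm_pow]
    have h1 := norm_inner_le_norm (𝕜 := ℝ) a x
    have h2 := norm_inner_le_norm (𝕜 := ℝ) b x
    rw [hx, mul_one] at h1 h2
    exact mul_le_mul (pow_le_pow_left₀ (norm_nonneg _) h1 _) (pow_le_pow_left₀ (norm_nonneg _) h2 _)
      (by positivity) (by positivity)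

lemma moment_unit (hμ : SphLike μ) (k : ℕ) (a b : EuclideanSpace ℝ (Fin d))
    (ha : ‖a‖ = 1) (hb : ‖b‖ = 1) : ∫ x, ⟪a, x⟫ ^ k ∂μ = ∫ x, ⟪b, x⟫ ^ k ∂μ := by
  set T := (ℝ ∙ (a - b))ᗮ.reflection with hT
  have hTa : T a = b := Submodule.reflection_sub (ha.trans hb.symm)
  have hTT : ∀ x, T (T x) = x := fun x => Submodule.reflection_reflection _ x
  have hTb : T b = a := by rw [← hTa, hTT]
  have h1 := (hμ.inv T).integral_comp T.toHomeomorph.measurableEmbedding (fun x => ⟪b, x⟫ ^ k)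
  rw [← h1]
  congr 1
  ext x
  have : ⟪b, T x⟫ = ⟪a, x⟫ := by
    rw [← hTa, T.inner_map_map]
  rw [this]

/-- the common value of the moments -/
lemma moment_pos (hd : 0 < d) (hμ : SphLike μ) (p : ℕ) : ∃ M : ℝ, 0 < M ∧
    ∀ a : EuclideanSpace ℝ (Fin d), ∫ x, ⟪a, x⟫ ^ (2 * p) ∂μ = M * (‖a‖ ^ 2) ^ p := by
  have := hμ.prob
  obtain ⟨C, hC, hslab⟩ := hμ.slab
  set e : EuclideanSpace ℝ (Fin d) := EuclideanSpace.single ⟨0, hd⟩ 1 with he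
  have he1 : ‖e‖ = 1 := by rw [he]; simp
  refine ⟨∫ x, ⟪e, x⟫ ^ (2 * p) ∂μ, ?_, ?_⟩
  · set t := 1 / (2 * C) with ht
    have htpos : 0 < t := by positivity
    have h1 := hslab e he1 t htpos.le
    have h2 : μ.real {x | |⟪e, x⟫| ≤ t} ≤ 1 / 2 := by
      refine h1.trans (le_of_eq ?_)
      rw [ht]; field_simp
    have hm : MeasurableSet {x : EuclideanSpace ℝ (Fin d) | |⟪e, x⟫| ≤ t} :=
      measurableSet_le (by fun_prop) measurable_const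
    have h3 : 1 / 2 ≤ μ.real {x | |⟪e, x⟫| ≤ t}ᶜ := by
      rw [measureReal_compl hm, probReal_univ]; linarith
    have h4 : t ^ (2 * p) * μ.real {x | |⟪e, x⟫| ≤ t}ᶜ ≤ ∫ x, ⟪e, x⟫ ^ (2 * p) ∂μ := by
      have hint : Integrable (fun x => ⟪e, x⟫ ^ (2 * p)) μ := by
        simpa using integrable_pow hμ e e (2 * p) 0
      have e1 : t ^ (2 * p) * μ.real {x | |⟪e, x⟫| ≤ t}ᶜ =
          ∫ x, ({x | |⟪e, x⟫| ≤ t}ᶜ).indicator (fun _ => t ^ (2 * p)) x ∂μ := by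
        rw [integral_indicator_const _ hm.compl, smul_eq_mul, mul_comm]
      rw [e1]
      refine integral_mono ((integrable_const _).indicator hm.compl) hint fun x => ?_
      simp only [indicator]
      split_ifs with hx
      · have hx' : t ≤ |⟪e, x⟫| := by
          by_contra hcon
          exact hx (le_of_lt (not_le.1 hcon))
        calc t ^ (2 * p) ≤ |⟪e, x⟫| ^ (2 * p) := pow_le_pow_left₀ htpos.le hx' _
          _ = ⟪e, x⟫ ^ (2 * p) := by rw [pow_mul, sq_abs, ← pow_mul]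
      · rw [pow_mul]; positivity
    have h5 : 0 < t ^ (2 * p) * μ.real {x | |⟪e, x⟫| ≤ t}ᶜ := by
      apply mul_pos (by positivity); linarith
    linarith
  · intro a
    by_cases ha : a = 0
    · subst ha
      by_cases hp : p = 0
      · subst hp; simp
      · simp [hp]
    · have hna : ‖a‖ ≠ 0 := norm_ne_zero_iff.2 ha
      have hu : ‖(‖a‖⁻¹ • a)‖ = 1 := by
        rw [norm_smul, norm_inv, norm_norm]; exact inv_mul_cancel₀ hna
      have h1 := moment_unit hμ (2 * p) _ _ hu he1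
      rw [← h1, ← pow_mul, mul_comm (∫ x, _ ∂μ), ← integral_const_mul]
      congr 1
      ext x
      rw [inner_smul_left, mul_pow]
      simp only [conj_trivial]
      rw [inv_pow, ← mul_assoc, mul_inv_cancel₀ (pow_ne_zero _ hna), one_mul]

lemma expand_moment (hμ : SphLike μ) (p : ℕ) (a b : EuclideanSpace ℝ (Fin d)) (s : ℝ) :
    ∫ x, ⟪s • a + b, x⟫ ^ (2 * p) ∂μ =
      ∑ j ∈ Finset.range (2 * p + 1), (((2 * p).choose j : ℝ) *
        ∫ x, ⟪a, x⟫ ^ j * ⟪b, x⟫ ^ (2 * p - j) ∂μ) * s ^ j := by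
  have h1 : ∀ x, ⟪s • a + b, x⟫ ^ (2 * p) =
      ∑ j ∈ Finset.range (2 * p + 1), (((2 * p).choose j : ℝ) * s ^ j) *
        (⟪a, x⟫ ^ j * ⟪b, x⟫ ^ (2 * p - j)) := by
    intro x
    rw [inner_add_left, inner_smul_left, add_pow]
    simp only [conj_trivial]
    refine Finset.sum_congr rfl fun j _ => ?_
    rw [mul_pow]; ring
  simp_rw [h1]
  rw [integral_finsetSum]
  · refine Finset.sum_congr rfl fun j _ => ?_
    rw [integral_const_mul]; ring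
  · intro j _
    exact (integrable_pow hμ a b _ _).const_mul _

theorem two_point3 (hd : 0 < d) (hμ : SphLike μ) : ∃ M : ℝ, 0 < M ∧
    ∀ a b : EuclideanSpace ℝ (Fin d), ∫ x, ⟪a, x⟫ ^ 3 * ⟪b, x⟫ ^ 3 ∂μ =
      M * (2 * ⟪a, b⟫ ^ 3 + 3 * ⟪a, b⟫ * (‖a‖ ^ 2 * ‖b‖ ^ 2)) := by
  obtain ⟨M, hM, hMa⟩ := moment_pos hd hμ 3
  refine ⟨M / 5, by positivity, fun a b => ?_⟩
  have h := trinom3 (‖a‖ ^ 2) (2 * ⟪a, b⟫) (‖b‖ ^ 2)
    (fun j => M⁻¹ * ((((2 * 3).choose j : ℕ) : ℝ) * ∫ x, ⟪a, x⟫ ^ j * ⟪b, x⟫ ^ (2 * 3 - j) ∂μ))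
    (by
      intro s
      have h1 := expand_moment hμ 3 a b s
      rw [hMa] at h1
      have h2 : ‖s • a + b‖ ^ 2 = ‖a‖ ^ 2 * s ^ 2 + 2 * ⟪a, b⟫ * s + ‖b‖ ^ 2 := by
        rw [norm_add_sq_real, norm_smul, inner_smul_left, Real.norm_eq_abs, mul_pow, sq_abs]
        simp only [conj_trivial]; ring
      rw [h2] at h1
      have h3 : ∑ j ∈ Finset.range (2 * 3 + 1), M⁻¹ * ((((2 * 3).choose j : ℕ) : ℝ) *
          ∫ x, ⟪a, x⟫ ^ j * ⟪b, x⟫ ^ (2 * 3 - j) ∂μ) * s ^ j =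
          M⁻¹ * (M * (‖a‖ ^ 2 * s ^ 2 + 2 * ⟪a, b⟫ * s + ‖b‖ ^ 2) ^ 3) := by
        rw [h1, Finset.mul_sum]
        exact Finset.sum_congr rfl fun j _ => by ring
      rw [← mul_assoc, inv_mul_cancel₀ hM.ne', one_mul] at h3
      exact h3)
  have hch : ((2 * 3).choose 3 : ℕ) = 20 := by decide
  simp only [hch] at h
  norm_num at h
  have h4 : ∫ x, ⟪a, x⟫ ^ 3 * ⟪b, x⟫ ^ 3 ∂μ = M / 20 * (M⁻¹ * (20 *
      ∫ x, ⟪a, x⟫ ^ 3 * ⟪b, x⟫ ^ 3 ∂μ)) := by field_simp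
  rw [h4, h]; ring

theorem two_point7 (hd : 0 < d) (hμ : SphLike μ) : ∃ M : ℝ, 0 < M ∧
    ∀ a b : EuclideanSpace ℝ (Fin d), ∫ x, ⟪a, x⟫ ^ 7 * ⟪b, x⟫ ^ 7 ∂μ =
      M * (16 * ⟪a, b⟫ ^ 7 + 168 * ⟪a, b⟫ ^ 5 * (‖a‖ ^ 2 * ‖b‖ ^ 2) +
        210 * ⟪a, b⟫ ^ 3 * (‖a‖ ^ 2 * ‖b‖ ^ 2) ^ 2 +
        35 * ⟪a, b⟫ * (‖a‖ ^ 2 * ‖b‖ ^ 2) ^ 3) := by
  obtain ⟨M, hM, hMa⟩ := moment_pos hd hμ 7
  refine ⟨8 * M / 3432, by positivity, fun a b => ?_⟩
  have h := trinom7 (‖a‖ ^ 2) (2 * ⟪a, b⟫) (‖b‖ ^ 2)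
    (fun j => M⁻¹ * ((((2 * 7).choose j : ℕ) : ℝ) * ∫ x, ⟪a, x⟫ ^ j * ⟪b, x⟫ ^ (2 * 7 - j) ∂μ))
    (by
      intro s
      have h1 := expand_moment hμ 7 a b s
      rw [hMa] at h1
      have h2 : ‖s • a + b‖ ^ 2 = ‖a‖ ^ 2 * s ^ 2 + 2 * ⟪a, b⟫ * s + ‖b‖ ^ 2 := by
        rw [norm_add_sq_real, norm_smul, inner_smul_left, Real.norm_eq_abs, mul_pow, sq_abs]
        simp only [conj_trivial]; ring
      rw [h2] at h1
      have h3 : ∑ j ∈ Finset.range (2 * 7 + 1), M⁻¹ * ((((2 * 7).choose j : ℕ) : ℝ) *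
          ∫ x, ⟪a, x⟫ ^ j * ⟪b, x⟫ ^ (2 * 7 - j) ∂μ) * s ^ j =
          M⁻¹ * (M * (‖a‖ ^ 2 * s ^ 2 + 2 * ⟪a, b⟫ * s + ‖b‖ ^ 2) ^ 7) := by
        rw [h1, Finset.mul_sum]
        exact Finset.sum_congr rfl fun j _ => by ring
      rw [← mul_assoc, inv_mul_cancel₀ hM.ne', one_mul] at h3
      exact h3)
  have hch : ((2 * 7).choose 7 : ℕ) = 3432 := by decide
  simp only [hch] at h
  norm_num at h
  have h4 : ∫ x, ⟪a, x⟫ ^ 7 * ⟪b, x⟫ ^ 7 ∂μ = M / 3432 * (M⁻¹ * (3432 *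
      ∫ x, ⟪a, x⟫ ^ 7 * ⟪b, x⟫ ^ 7 ∂μ)) := by field_simp
  rw [h4, h]; ring


/-- The criterion: a colouring of the sphere in 2 colours all of whose monochromatic subsets
symmetric in some line have measure `≤ β < 1/4`. -/
theorem criterion' {K : Type*} [Fintype K] (hd : 2 ≤ d) (hμ : SphLike μ) (p : ℕ) (hp : Odd p)
    (Lam : ℝ → ℝ → ℝ) (M : ℝ) (hM : 0 < M)
    (hLam : ∀ a b : EuclideanSpace ℝ (Fin d), ∫ x, ⟪a, x⟫ ^ p * ⟪b, x⟫ ^ p ∂μ =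
      M * Lam ⟪a, b⟫ (‖a‖ ^ 2 * ‖b‖ ^ 2))
    (w : K → ℝ) (a : K → EuclideanSpace ℝ (Fin d)) (δ : ℝ) (hδ : 0 < δ)
    (hneg : ∀ n, ‖n‖ = 1 → ∑ k, ∑ l, w k * w l *
      Lam (2 * ⟪n, a k⟫ * ⟪n, a l⟫ - ⟪a k, a l⟫) (‖a k‖ ^ 2 * ‖a l‖ ^ 2) ≤ -δ) :
    ∃ β : ℝ, β < 1 / 4 ∧ ∃ c : EuclideanSpace ℝ (Fin d) → Bool, Measurable c ∧
      ∀ n, ‖n‖ = 1 → ∀ i, μ.real {x | c x = i ∧ c (sig n x) = i} ≤ β := by
  have := hμ.prob
  set f : EuclideanSpace ℝ (Fin d) → ℝ := fun x => ∑ k, w k * ⟪a k, x⟫ ^ p with hf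
  have hfc : Continuous f := by rw [hf]; fun_prop
  have hfodd : ∀ x, f (-x) = - f x := by
    intro x
    simp only [hf, inner_neg_right, hp.neg_pow, mul_neg, Finset.sum_neg_distrib]
  -- correlation
  have hcorr : ∀ n, ‖n‖ = 1 → ∫ x, f x * f (sig n x) ∂μ ≤ -(M * δ) := by
    intro n hn
    have e1 : ∀ x, f x * f (sig n x) =
        ∑ k, ∑ l, (w k * w l) * (⟪a k, x⟫ ^ p * ⟪sig n (a l), x⟫ ^ p) := by
      intro x
      simp only [hf]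
      rw [Finset.sum_mul_sum]
      refine Finset.sum_congr rfl fun k _ => Finset.sum_congr rfl fun l _ => ?_
      rw [sig_symm hn (a l) x]; ring
    simp_rw [e1]
    rw [integral_finsetSum]
    swap
    · intro k _
      exact integrable_finsetSum _ fun l _ => (integrable_pow hμ _ _ _ _).const_mul _
    have e2 : ∀ k, ∫ x, ∑ l, (w k * w l) * (⟪a k, x⟫ ^ p * ⟪sig n (a l), x⟫ ^ p) ∂μ =
        ∑ l, M * (w k * w l *
      Lam (2 * ⟪n, a k⟫ * ⟪n, a l⟫ - ⟪a k, a l⟫) (‖a k‖ ^ 2 * ‖a l‖ ^ 2)) := by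
      intro k
      rw [integral_finsetSum]
      swap
      · intro l _
        exact (integrable_pow hμ _ _ _ _).const_mul _
      refine Finset.sum_congr rfl fun l _ => ?_
      rw [integral_const_mul, hLam, LinearIsometryEquiv.norm_map]
      have e3 : ⟪a k, sig n (a l)⟫ = 2 * ⟪n, a k⟫ * ⟪n, a l⟫ - ⟪a k, a l⟫ := by
        rw [sig_apply hn, inner_sub_right, inner_smul_right, real_inner_comm n (a k)]; ring
      rw [e3]; ring
    simp_rw [e2]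
    have e4 := hneg n hn
    simp_rw [← Finset.mul_sum]
    nlinarith
  -- mean zero
  have hfint : Integrable f μ := by
    refine integrable_finsetSum _ fun k _ => ?_
    have := (integrable_pow hμ (a k) (a k) p 0).const_mul (w k)
    simpa using this
  have hmean : ∫ x, f x ∂μ = 0 := by
    have h1 := (hμ.inv (LinearIsometryEquiv.neg ℝ)).integral_comp
      (LinearIsometryEquiv.neg ℝ).toHomeomorph.measurableEmbedding f
    simp only [LinearIsometryEquiv.coe_neg, Pi.neg_apply, id_eq] at h1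
    have h2 : ∫ x, f (-x) ∂μ = - ∫ x, f x ∂μ := by
      simp_rw [hfodd]; rw [integral_neg]
    have h3 : ∫ x, f (-x) ∂μ = ∫ x, f x ∂μ := h1
    linarith
  -- bound
  obtain ⟨B, hB0, hB⟩ : ∃ B : ℝ, 0 < B ∧ ∀ x, ‖x‖ = 1 → |f x| ≤ B := by
    have hcomp : IsCompact (sphere (0 : EuclideanSpace ℝ (Fin d)) 1) := isCompact_sphere 0 1
    obtain ⟨B, hB⟩ := hcomp.exists_bound_of_continuousOn hfc.continuousOn
    refine ⟨max B 1, lt_max_of_lt_right one_pos, fun x hx => ?_⟩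
    exact (hB x (by simpa using hx)).trans (le_max_left _ _)
  set ε := 1 / (2 * B) with hε
  have hεpos : 0 < ε := by positivity
  have hεB : ε * B = 1 / 2 := by rw [hε]; field_simp
  set h : EuclideanSpace ℝ (Fin d) → ℝ := fun x => 1 / 2 + ε * f x with hh
  have hint2 : ∀ n, Integrable (fun x => f (sig n x)) μ := fun n =>
    ((hμ.inv (sig n)).integrable_comp hfint.aestronglyMeasurable).2 hfint
  have hmean2 : ∀ n, ∫ x, f (sig n x) ∂μ = 0 := fun n =>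
    ((hμ.inv (sig n)).integral_comp (sig n).toHomeomorph.measurableEmbedding f).trans hmean
  have hint3 : ∀ n, Integrable (fun x => f x * f (sig n x)) μ := by
    intro n
    refine Integrable.of_bound (Continuous.aestronglyMeasurable
      (hfc.mul (hfc.comp (sig n).continuous))) (B * B) ?_
    filter_upwards [hμ.ae_norm] with x hx
    rw [norm_mul]
    exact mul_le_mul (hB x hx) (hB _ (by rw [LinearIsometryEquiv.norm_map]; exact hx))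
      (norm_nonneg _) hB0.le
  have hcorr2 : ∀ (n : EuclideanSpace ℝ (Fin d)) (s : ℝ), ‖n‖ = 1 →
      ∫ x, (1 / 2 + s * f x) * (1 / 2 + s * f (sig n x)) ∂μ ≤ 1 / 4 - s ^ 2 * (M * δ) := by
    intro n s hn
    have e1 : ∀ x, (1 / 2 + s * f x) * (1 / 2 + s * f (sig n x)) =
        1 / 4 + (s / 2) * f x + (s / 2) * f (sig n x) + s ^ 2 * (f x * f (sig n x)) := by
      intro x; ring
    simp_rw [e1]
    have i1 : Integrable (fun x => 1 / 4 + (s / 2) * f x) μ :=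
      (integrable_const _).add (hfint.const_mul _)
    have i2 : Integrable (fun x => 1 / 4 + (s / 2) * f x + (s / 2) * f (sig n x)) μ :=
      i1.add ((hint2 n).const_mul _)
    rw [integral_add i2 ((hint3 n).const_mul _), integral_add i1 ((hint2 n).const_mul _),
      integral_add (integrable_const _) (hfint.const_mul _), integral_const_mul,
      integral_const_mul, integral_const_mul, hmean, hmean2 n]
    have := mul_le_mul_of_nonneg_left (hcorr n hn) (sq_nonneg s)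
    simp
    linarith
  obtain ⟨c, hcm, hc⟩ := realize hd μ hμ h (by rw [hh]; fun_prop)
    (by
      intro x hx
      have := abs_le.1 (hB x hx)
      simp only [hh]
      constructor <;> nlinarith)
    (1 / 4 - ε ^ 2 * (M * δ))
    (fun n hn => hcorr2 n ε hn)
    (fun n hn => by
      have := hcorr2 n (-ε) hn
      rw [neg_sq] at this
      refine le_trans (le_of_eq ?_) this
      congr 1; ext x; simp only [hh]; ring)
    (ε ^ 2 * (M * δ) / 2) (by positivity)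
  refine ⟨_, ?_, c, hcm, hc⟩
  have : 0 < ε ^ 2 * (M * δ) := by positivity
  linarith

theorem criterion {K : Type*} [Fintype K] (hd : 2 ≤ d) (hμ : SphLike μ) (p : ℕ) (hp : Odd p)
    (Lam : ℝ → ℝ → ℝ) (M : ℝ) (hM : 0 < M)
    (hLam : ∀ a b : EuclideanSpace ℝ (Fin d), ∫ x, ⟪a, x⟫ ^ p * ⟪b, x⟫ ^ p ∂μ =
      M * Lam ⟪a, b⟫ (‖a‖ ^ 2 * ‖b‖ ^ 2))
    (w : K → ℝ) (a : K → EuclideanSpace ℝ (Fin d)) (δ : ℝ) (hδ : 0 < δ)
    (hneg : ∀ n, ‖n‖ = 1 → ∑ k, ∑ l, w k * w l *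
      Lam (2 * ⟪n, a k⟫ * ⟪n, a l⟫ - ⟪a k, a l⟫) (‖a k‖ ^ 2 * ‖a l‖ ^ 2) ≤ -δ) :
    ∃ c : EuclideanSpace ℝ (Fin d) → Bool, Measurable c ∧
      ∀ n, ‖n‖ = 1 → ∀ i, μ.real {x | c x = i ∧ c (sig n x) = i} < 1 / 4 := by
  obtain ⟨β, hβ, c, hc, h⟩ := criterion' hd hμ p hp Lam M hM hLam w a δ hδ hneg
  exact ⟨c, hc, fun n hn i => lt_of_le_of_lt (h n hn i) hβ⟩

end Pool.Agent.Helper36.Moment
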