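import Mathlib
set_option autoImplicit false

/-! Nested-list polynomials with integer coefficients, for kernel computation. -/

namespace Pool.Agent.Helper36.PL

section generic
variable {R : Type}

/-- `acc + a * q` -/
def macL (f : R → R → R → R) (z : R) (a : R) : List R → List R → List R
  | [], acc => acc
  | b :: q, [] => f a b z :: macL f z a q []
  | b :: q, c :: acc => f a b c :: macL f z a q acc

/-- `acc + p * q` -/
def fmaL (f : R → R → R → R) (z : R) : List R → List R → List R → List R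
  | [], _, acc => acc
  | a :: p, q, acc => match macL f z a q acc with
    | [] => []
    | c :: r => c :: fmaL f z p q r

/-- evaluation -/
noncomputable def ev (φ : R → ℝ) (x : ℝ) : List R → ℝ
  | [] => 0
  | a :: p => φ a + x * ev φ x p

variable {f : R → R → R → R} {z : R} {φ : R → ℝ}

lemma ev_mac (hf : ∀ a b c, φ (f a b c) = φ a * φ b + φ c) (hz : φ z = 0) (x : ℝ) (a : R) :
    ∀ q acc : List R, ev φ x (macL f z a q acc) = φ a * ev φ x q + ev φ x acc
  | [], acc => by simp [macL, ev]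
  | b :: q, [] => by
    simp only [macL, ev, hf, hz, ev_mac hf hz x a q []]; ring
  | b :: q, c :: acc => by
    simp only [macL, ev, hf, ev_mac hf hz x a q acc]; ring

lemma ev_fma (hf : ∀ a b c, φ (f a b c) = φ a * φ b + φ c) (hz : φ z = 0) (x : ℝ) :
    ∀ p q acc : List R, ev φ x (fmaL f z p q acc) = ev φ x p * ev φ x q + ev φ x acc
  | [], q, acc => by simp [fmaL, ev]
  | a :: p, q, acc => by
    have h1 := ev_mac hf hz x a q acc
    rw [fmaL]
    cases hm : macL f z a q acc with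
    | nil =>
      rw [hm] at h1
      have hq : q = [] := by
        cases q with
        | nil => rfl
        | cons b q => cases acc <;> simp [macL] at hm
      subst hq
      have hacc : acc = [] := by simpa [macL] using hm
      subst hacc
      simp [ev]
    | cons c r =>
      rw [hm] at h1
      simp only [ev] at h1 ⊢
      rw [ev_fma hf hz x p q r]
      linear_combination h1

end generic

def fma0 (a b c : ℤ) : ℤ := Int.add (Int.mul a b) c

lemma fma0_cast (a b c : ℤ) : ((fma0 a b c : ℤ) : ℝ) = (a : ℝ) * b + c := by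
  show ((a * b + c : ℤ) : ℝ) = _
  push_cast; ring

abbrev P1 := List ℤ
abbrev P2 := List (List ℤ)
abbrev P3 := List (List (List ℤ))

def fma1 (p q acc : P1) : P1 := fmaL fma0 0 p q acc
def fma2 (p q acc : P2) : P2 := fmaL fma1 [] p q acc
def fma3 (p q acc : P3) : P3 := fmaL fma2 [] p q acc

noncomputable def ev1 (x : ℝ) (p : P1) : ℝ := ev (fun a : ℤ => (a : ℝ)) x p
noncomputable def ev2 (x y : ℝ) (p : P2) : ℝ := ev (ev1 x) y p
noncomputable def ev3 (x y z : ℝ) (p : P3) : ℝ := ev (ev2 x y) z p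

@[simp] lemma ev1_nil (x : ℝ) : ev1 x [] = 0 := rfl
@[simp] lemma ev1_cons (x : ℝ) (a : ℤ) (p : P1) : ev1 x (a :: p) = a + x * ev1 x p := rfl
@[simp] lemma ev2_nil (x y : ℝ) : ev2 x y [] = 0 := rfl
@[simp] lemma ev2_cons (x y : ℝ) (a : P1) (p : P2) :
    ev2 x y (a :: p) = ev1 x a + y * ev2 x y p := rfl
@[simp] lemma ev3_nil (x y z : ℝ) : ev3 x y z [] = 0 := rfl
@[simp] lemma ev3_cons (x y z : ℝ) (a : P2) (p : P3) :
    ev3 x y z (a :: p) = ev2 x y a + z * ev3 x y z p := rfl

lemma ev1_fma (x : ℝ) (p q acc : P1) :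
    ev1 x (fma1 p q acc) = ev1 x p * ev1 x q + ev1 x acc :=
  ev_fma (fun a b c => fma0_cast a b c) (by norm_num) x p q acc

lemma ev2_fma (x y : ℝ) (p q acc : P2) :
    ev2 x y (fma2 p q acc) = ev2 x y p * ev2 x y q + ev2 x y acc :=
  ev_fma (fun a b c => ev1_fma x a b c) rfl y p q acc

lemma ev3_fma (x y z : ℝ) (p q acc : P3) :
    ev3 x y z (fma3 p q acc) = ev3 x y z p * ev3 x y z q + ev3 x y z acc :=
  ev_fma (fun a b c => ev2_fma x y a b c) rfl z p q acc

/-! Size bounds. -/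

def n1 : P1 → ℕ
  | [] => 0
  | a :: p => a.natAbs + n1 p
def n2 : P2 → ℕ
  | [] => 0
  | a :: p => n1 a + n2 p
def n3 : P3 → ℕ
  | [] => 0
  | a :: p => n2 a + n3 p

/-- total degree at most `L` (in the obvious shape sense) -/
def d1 : ℕ → P1 → Bool
  | _, [] => true
  | 0, _ :: p => p.isEmpty
  | L + 1, _ :: p => d1 L p
def d2 : ℕ → P2 → Bool
  | _, [] => true
  | 0, r :: p => d1 0 r && p.isEmpty
  | L + 1, r :: p => d1 (L + 1) r && d2 L p
def d3 : ℕ → P3 → Bool
  | _, [] => true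
  | 0, r :: p => d2 0 r && p.isEmpty
  | L + 1, r :: p => d2 (L + 1) r && d3 L p

lemma abs_ev1 {x M : ℝ} (hM : 1 ≤ M) (hx : |x| ≤ M) :
    ∀ (L : ℕ) (p : P1), d1 L p = true → |ev1 x p| ≤ n1 p * M ^ L
  | L, [], _ => by simp [n1]
  | 0, a :: p, h => by
    simp only [d1, List.isEmpty_iff] at h
    subst h
    simp [n1]
  | L + 1, a :: p, h => by
    simp only [d1] at h
    have ih := abs_ev1 hM hx L p h
    have h0 : (0 : ℝ) ≤ M := by linarith
    rw [ev1_cons]
    refine (abs_add_le _ _).trans ?_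
    rw [abs_mul, n1]
    push_cast
    have e1 : |(a : ℝ)| ≤ |(a : ℝ)| * M ^ (L + 1) :=
      le_mul_of_one_le_right (abs_nonneg _) (one_le_pow₀ hM)
    have e2 : |x| * |ev1 x p| ≤ M * (n1 p * M ^ L) :=
      mul_le_mul hx ih (abs_nonneg _) h0
    have e3 : ((a.natAbs : ℕ) : ℝ) = |(a : ℝ)| := by
      rw [Nat.cast_natAbs]; push_cast; rfl
    rw [← e3] at e1 ⊢
    rw [add_mul]
    have e4 : M * ((n1 p : ℝ) * M ^ L) = n1 p * M ^ (L + 1) := by ring
    linarith

lemma abs_ev2 {x y M : ℝ} (hM : 1 ≤ M) (hx : |x| ≤ M) (hy : |y| ≤ M) :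
    ∀ (L : ℕ) (p : P2), d2 L p = true → |ev2 x y p| ≤ n2 p * M ^ L
  | L, [], _ => by simp [n2]
  | 0, a :: p, h => by
    simp only [d2, Bool.and_eq_true, List.isEmpty_iff] at h
    obtain ⟨h1, rfl⟩ := h
    simpa [n2] using abs_ev1 hM hx 0 a h1
  | L + 1, a :: p, h => by
    simp only [d2, Bool.and_eq_true] at h
    have ih := abs_ev2 hM hx hy L p h.2
    have ih1 := abs_ev1 hM hx (L + 1) a h.1
    have h0 : (0 : ℝ) ≤ M := by linarith
    rw [ev2_cons]
    refine (abs_add_le _ _).trans ?_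
    rw [abs_mul, n2]
    push_cast
    have e2 : |y| * |ev2 x y p| ≤ M * (n2 p * M ^ L) :=
      mul_le_mul hy ih (abs_nonneg _) h0
    rw [add_mul]
    have e4 : M * ((n2 p : ℝ) * M ^ L) = n2 p * M ^ (L + 1) := by ring
    linarith

lemma abs_ev3 {x y z M : ℝ} (hM : 1 ≤ M) (hx : |x| ≤ M) (hy : |y| ≤ M) (hz : |z| ≤ M) :
    ∀ (L : ℕ) (p : P3), d3 L p = true → |ev3 x y z p| ≤ n3 p * M ^ L
  | L, [], _ => by simp [n3]
  | 0, a :: p, h => by
    simp only [d3, Bool.and_eq_true, List.isEmpty_iff] at h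
    obtain ⟨h1, rfl⟩ := h
    simpa [n3] using abs_ev2 hM hx hy 0 a h1
  | L + 1, a :: p, h => by
    simp only [d3, Bool.and_eq_true] at h
    have ih := abs_ev3 hM hx hy hz L p h.2
    have ih1 := abs_ev2 hM hx hy (L + 1) a h.1
    have h0 : (0 : ℝ) ≤ M := by linarith
    rw [ev3_cons]
    refine (abs_add_le _ _).trans ?_
    rw [abs_mul, n3]
    push_cast
    have e2 : |z| * |ev3 x y z p| ≤ M * (n3 p * M ^ L) :=
      mul_le_mul hz ih (abs_nonneg _) h0
    rw [add_mul]
    have e4 : M * ((n3 p : ℝ) * M ^ L) = n3 p * M ^ (L + 1) := by ring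
    linarith

end Pool.Agent.Helper36.PL
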