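import Mathlib
import Pool.Agent.Helper36.S2Data
import Pool.Agent.Helper36.Moment
set_option autoImplicit false

/-! The two-colouring of `S^2`. -/

namespace Pool.Agent.Helper36.S2Cert
open PL MeasureTheory Set Metric SphMeas RealizeSph Moment
open scoped RealInnerProductSpace ENNReal

lemma totR_cons (x y : ℝ) (v : V) (vs : List V) :
    totR x y 1 (v :: vs) = ev2 x y (rowP v vs) + totR x y 1 vs := by
  rw [totR, ev2_rowP]

lemma totR_nil (x y : ℝ) : totR x y 1 [] = 0 := rfl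

lemma tot_affine (x y : ℝ) :
    totR x y 1 nodes ≤ -((cc : ℝ) / 2) * (x ^ 2 + y ^ 2 + 1 ^ 2) ^ 7 := by
  have h1 : totR x y 1 nodes = ev2 x y (sumP [r0, r1, r2, r3, r4, r5, r6, r7, r8, r9, r10, r11,
      r12, r13, r14] []) := by
    rw [ev2_sumP]
    rw [nodes, totR_cons, totR_cons, totR_cons, totR_cons, totR_cons, totR_cons, totR_cons,
      totR_cons, totR_cons, totR_cons, totR_cons, totR_cons, totR_cons, totR_cons, totR_cons,
      totR_nil, r0_eq, r1_eq, r2_eq, r3_eq, r4_eq, r5_eq, r6_eq, r7_eq,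
      r8_eq, r9_eq, r10_eq, r11_eq, r12_eq, r13_eq, r14_eq]
    simp only [List.map_cons, List.sum_cons, List.map_nil, List.sum_nil, ev2_nil]
    ring
  have h2 := congrArg (ev2 x y) rems_eq
  rw [ev2_sqP, ev2_fma, ev2_rho7, ev2_const, ← h1] at h2
  set ρ := x ^ 2 + y ^ 2 + 1 ^ 2 with hρ
  have hρ1 : 1 ≤ ρ := by rw [hρ]; nlinarith [sq_nonneg x, sq_nonneg y]
  have hM1 : 1 ≤ √ρ := Real.one_le_sqrt.2 hρ1
  have hMx : |x| ≤ √ρ := Real.abs_le_sqrt (by rw [hρ]; nlinarith [sq_nonneg y])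
  have hMy : |y| ≤ √ρ := Real.abs_le_sqrt (by rw [hρ]; nlinarith [sq_nonneg x])
  have h3 := abs_ev2 hM1 hMx hMy 14 rems rems_deg
  have h4 : √ρ ^ 14 = ρ ^ 7 := by
    rw [show (14 : ℕ) = 2 * 7 by norm_num, pow_mul, Real.sq_sqrt (by linarith)]
  rw [h4] at h3
  have h5 : (2 : ℝ) * n2 rems ≤ cc := by exact_mod_cast rems_small
  have h6 : 0 ≤ (ells.map (fun r => (ev2 x y r) ^ 2)).sum := by
    apply List.sum_nonneg
    intro z hz
    obtain ⟨r, -, rfl⟩ := List.mem_map.1 hz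
    exact sq_nonneg _
  have h7 := (abs_le.1 h3).2
  have h8 : 0 ≤ ρ ^ 7 := by positivity
  have h9 := mul_le_mul_of_nonneg_right h5 h8
  linarith

/-- homogeneous version -/
noncomputable def H (X Y Z : ℝ) : ℝ :=
  ∑ k : Fin nodes.length, ∑ l : Fin nodes.length, F X Y Z nodes[k.1] nodes[l.1] +
    (cc : ℝ) / 2 * (X ^ 2 + Y ^ 2 + Z ^ 2) ^ 7

lemma H_eq (X Y Z : ℝ) : H X Y Z = totR X Y Z nodes + (cc : ℝ) / 2 * (X ^ 2 + Y ^ 2 + Z ^ 2) ^ 7 := by
  unfold H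
  congr 1
  rw [totR_eq]
  have h1 : ∀ v, ∑ l : Fin nodes.length, F X Y Z v nodes[l.1] = (nodes.map (F X Y Z v)).sum :=
    fun v => Fin.sum_univ_fun_getElem nodes (F X Y Z v)
  simp_rw [h1]
  exact Fin.sum_univ_fun_getElem nodes (fun v => (nodes.map (F X Y Z v)).sum)

lemma H_hom (z X Y Z : ℝ) : H (z * X) (z * Y) (z * Z) = z ^ 14 * H X Y Z := by
  unfold H
  simp_rw [F_hom, ← Finset.mul_sum]
  ring

lemma H_nonpos_of_ne (X Y Z : ℝ) (hZ : Z ≠ 0) : H X Y Z ≤ 0 := by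
  have h1 : H X Y Z = Z ^ 14 * H (X / Z) (Y / Z) 1 := by
    rw [← H_hom]; congr 1 <;> field_simp
  have h2 := tot_affine (X / Z) (Y / Z)
  have h3 : H (X / Z) (Y / Z) 1 ≤ 0 := by rw [H_eq]; linarith
  rw [h1]
  have h4 : 0 ≤ Z ^ 14 := by positivity
  exact mul_nonpos_of_nonneg_of_nonpos h4 h3

lemma H_nonpos (X Y Z : ℝ) : H X Y Z ≤ 0 := by
  have hcont : Continuous (fun Z => H X Y Z) := by
    unfold H F lamR linR
    fun_prop
  have hcl : IsClosed {Z | H X Y Z ≤ 0} := isClosed_le hcont continuous_const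
  have hsub : ({0}ᶜ : Set ℝ) ⊆ {Z | H X Y Z ≤ 0} := fun Z hZ => H_nonpos_of_ne X Y Z hZ
  have := hcl.closure_subset_iff.2 hsub
  rw [(dense_compl_singleton (0 : ℝ)).closure_eq] at this
  exact this (mem_univ Z)

noncomputable def vec (v : V) : EuclideanSpace ℝ (Fin 3) := !₂[(v.1 : ℝ), (v.2.1 : ℝ), (v.2.2 : ℝ)]

lemma inner_vec (n : EuclideanSpace ℝ (Fin 3)) (v : V) :
    ⟪n, vec v⟫ = linR (n 0) (n 1) (n 2) v := by
  simp [vec, linR, PiLp.inner_apply, Fin.sum_univ_three]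

lemma vec_vec (u v : V) : ⟪vec u, vec v⟫ = (dot u v : ℝ) := by
  rw [inner_vec]
  simp [vec, linR, dot]
  ring

theorem exists_colouring : ∃ c : EuclideanSpace ℝ (Fin 3) → Bool, Measurable c ∧
    ∀ n, ‖n‖ = 1 → ∀ i, (sph 3).real {x | c x = i ∧ c (sig n x) = i} < 1 / 4 := by
  obtain ⟨M, hM, hLam⟩ := two_point7 (d := 3) (by norm_num) (sph_sphLike (d := 3) (by norm_num))
  refine criterion (K := Fin nodes.length) (by norm_num) (sph_sphLike (by norm_num)) 7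
    (by decide) lamR M hM (fun a b => by rw [hLam]; unfold lamR; ring)
    (fun _ => 1) (fun k => vec nodes[k.1]) ((cc : ℝ) / 2) ?_ ?_
  · have : (0 : ℝ) < cc := by exact_mod_cast cc_pos
    linarith
  · intro n hn
    have h1 := H_nonpos (n 0) (n 1) (n 2)
    have h2 : n 0 ^ 2 + n 1 ^ 2 + n 2 ^ 2 = 1 := by
      have := EuclideanSpace.real_norm_sq_eq n
      rw [hn, Fin.sum_univ_three] at this
      linarith
    unfold H at h1
    rw [h2, one_pow, mul_one] at h1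
    have h3 : ∀ k l : Fin nodes.length, (1 : ℝ) * 1 * lamR
        (2 * ⟪n, vec nodes[k.1]⟫ * ⟪n, vec nodes[l.1]⟫ - ⟪vec nodes[k.1], vec nodes[l.1]⟫)
        (‖vec nodes[k.1]‖ ^ 2 * ‖vec nodes[l.1]‖ ^ 2) =
        F (n 0) (n 1) (n 2) nodes[k.1] nodes[l.1] := by
      intro k l
      unfold F
      rw [h2, inner_vec, inner_vec, vec_vec, ← real_inner_self_eq_norm_sq,
        ← real_inner_self_eq_norm_sq, vec_vec, vec_vec]
      ring_nf
    simp_rw [h3]
    linarith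

end Pool.Agent.Helper36.S2Cert
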