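import Mathlib
import Pool.Agent.Helper36.PolyList
set_option autoImplicit false

/-! Degree-7 ridge functions on `S^2`: the correlation polynomial as a nested list. -/

namespace Pool.Agent.Helper36.S2Cert
open PL

abbrev V := ℤ × ℤ × ℤ

def dot (a b : V) : ℤ := a.1 * b.1 + a.2.1 * b.2.1 + a.2.2 * b.2.2
def lin (a : V) : P2 := [[a.2.2, a.1], [a.2.1]]
def lin2 (a : V) : P2 := [[2 * a.2.2, 2 * a.1], [2 * a.2.1]]
def rho : P2 := [[1, 0, 1], [], [1]]
def rho2 : P2 := [[1, 0, 2, 0, 1], [], [2, 0, 2], [], [1]]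
def rho4 : P2 := [[1, 0, 4, 0, 6, 0, 4, 0, 1], [], [4, 0, 12, 0, 12, 0, 4], [],
  [6, 0, 12, 0, 6], [], [4, 0, 4], [], [1]]
def rho6 : P2 := fma2 rho2 rho4 []
def rho7 : P2 := fma2 rho rho6 []

/-- `acc + m * Λ(T, s ρ²)` -/
def Lam (m : ℤ) (v u : V) (acc : P2) : P2 :=
  let T := fma2 (lin2 v) (lin u) (fma2 [[-(dot v u)]] rho [])
  let T2 := fma2 T T []
  let s := dot v v * dot u u
  let A := fma2 [[16]] T2 (fma2 [[168 * s]] rho2 [])
  let B := fma2 T2 A (fma2 [[210 * s ^ 2]] rho4 [])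
  let C := fma2 T2 B (fma2 [[35 * s ^ 3]] rho6 [])
  fma2 (fma2 [[m]] T []) C acc

def row (v : V) : List V → P2 → P2
  | [], acc => acc
  | u :: us, acc => row v us (Lam 2 v u acc)

def rowP (v : V) (us : List V) : P2 := row v us (Lam 1 v v [])

def sumP : List P2 → P2 → P2
  | [], acc => acc
  | r :: rs, acc => sumP rs (fma2 [[1]] r acc)

def sqP : List P2 → P2 → P2
  | [], acc => acc
  | r :: rs, acc => sqP rs (fma2 r r acc)

/-! real semantics -/

noncomputable def lamR (T s : ℝ) : ℝ := 16 * T ^ 7 + 168 * T ^ 5 * s + 210 * T ^ 3 * s ^ 2 +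
  35 * T * s ^ 3

noncomputable def linR (X Y Z : ℝ) (a : V) : ℝ := a.1 * X + a.2.1 * Y + a.2.2 * Z

noncomputable def F (X Y Z : ℝ) (v u : V) : ℝ :=
  lamR (2 * linR X Y Z v * linR X Y Z u - dot v u * (X ^ 2 + Y ^ 2 + Z ^ 2))
    ((dot v v : ℝ) * dot u u * (X ^ 2 + Y ^ 2 + Z ^ 2) ^ 2)

lemma dot_comm (v u : V) : dot v u = dot u v := by unfold dot; ring

lemma F_symm (X Y Z : ℝ) (v u : V) : F X Y Z v u = F X Y Z u v := by
  unfold F
  rw [dot_comm v u, mul_right_comm 2, mul_comm (dot v v : ℝ)]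

lemma ev2_lin (x y : ℝ) (a : V) : ev2 x y (lin a) = linR x y 1 a := by
  simp [lin, linR]; ring

lemma ev2_lin2 (x y : ℝ) (a : V) : ev2 x y (lin2 a) = 2 * linR x y 1 a := by
  simp [lin2, linR]; ring

lemma ev2_const (x y : ℝ) (m : ℤ) : ev2 x y [[m]] = m := by simp

lemma ev2_rho (x y : ℝ) : ev2 x y rho = x ^ 2 + y ^ 2 + 1 ^ 2 := by
  simp [rho]; ring

lemma ev2_rho2 (x y : ℝ) : ev2 x y rho2 = (x ^ 2 + y ^ 2 + 1 ^ 2) ^ 2 := by
  simp [rho2]; ring

lemma ev2_rho4 (x y : ℝ) : ev2 x y rho4 = (x ^ 2 + y ^ 2 + 1 ^ 2) ^ 4 := by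
  simp [rho4]; ring

lemma ev2_rho6 (x y : ℝ) : ev2 x y rho6 = (x ^ 2 + y ^ 2 + 1 ^ 2) ^ 6 := by
  rw [rho6, ev2_fma, ev2_rho2, ev2_rho4, ev2_nil]; ring

lemma ev2_rho7 (x y : ℝ) : ev2 x y rho7 = (x ^ 2 + y ^ 2 + 1 ^ 2) ^ 7 := by
  rw [rho7, ev2_fma, ev2_rho, ev2_rho6, ev2_nil]; ring

lemma ev2_Lam (x y : ℝ) (m : ℤ) (v u : V) (acc : P2) :
    ev2 x y (Lam m v u acc) = m * F x y 1 v u + ev2 x y acc := by
  unfold Lam F lamR
  simp only [ev2_fma, ev2_const, ev2_lin, ev2_lin2, ev2_rho, ev2_rho2, ev2_rho4, ev2_rho6,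
    ev2_nil]
  push_cast
  ring

lemma ev2_row (x y : ℝ) (v : V) : ∀ (us : List V) (acc : P2),
    ev2 x y (row v us acc) = 2 * (us.map (F x y 1 v)).sum + ev2 x y acc
  | [], acc => by simp [row]
  | u :: us, acc => by
    rw [row, ev2_row x y v us, ev2_Lam]
    simp only [List.map_cons, List.sum_cons]
    push_cast; ring

lemma ev2_rowP (x y : ℝ) (v : V) (us : List V) :
    ev2 x y (rowP v us) = F x y 1 v v + 2 * (us.map (F x y 1 v)).sum := by
  rw [rowP, ev2_row, ev2_Lam]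
  simp only [ev2_nil]
  push_cast; ring

lemma ev2_sumP (x y : ℝ) : ∀ (rs : List P2) (acc : P2),
    ev2 x y (sumP rs acc) = (rs.map (ev2 x y)).sum + ev2 x y acc
  | [], acc => by simp [sumP]
  | r :: rs, acc => by
    rw [sumP, ev2_sumP x y rs, ev2_fma, ev2_const]
    simp only [List.map_cons, List.sum_cons]
    push_cast; ring

lemma ev2_sqP (x y : ℝ) : ∀ (rs : List P2) (acc : P2),
    ev2 x y (sqP rs acc) = (rs.map (fun r => (ev2 x y r) ^ 2)).sum + ev2 x y acc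
  | [], acc => by simp [sqP]
  | r :: rs, acc => by
    rw [sqP, ev2_sqP x y rs, ev2_fma]
    simp only [List.map_cons, List.sum_cons]
    ring

noncomputable def totR (X Y Z : ℝ) : List V → ℝ
  | [] => 0
  | v :: vs => F X Y Z v v + 2 * (vs.map (F X Y Z v)).sum + totR X Y Z vs

lemma totR_eq (X Y Z : ℝ) : ∀ l : List V,
    totR X Y Z l = (l.map fun v => (l.map (F X Y Z v)).sum).sum
  | [] => by simp [totR]
  | v :: vs => by
    rw [totR, totR_eq X Y Z vs]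
    simp only [List.map_cons, List.sum_cons]
    have h1 : (vs.map fun w => F X Y Z w v + (vs.map (F X Y Z w)).sum).sum =
        (vs.map (F X Y Z v)).sum + (vs.map fun w => (vs.map (F X Y Z w)).sum).sum := by
      rw [List.sum_map_add]
      congr 2
      exact List.map_congr_left fun w _ => F_symm X Y Z w v
    rw [h1]; ring

lemma lamR_hom (z T s : ℝ) : lamR (z ^ 2 * T) (z ^ 4 * s) = z ^ 14 * lamR T s := by
  unfold lamR; ring

lemma F_hom (z X Y Z : ℝ) (v u : V) : F (z * X) (z * Y) (z * Z) v u = z ^ 14 * F X Y Z v u := by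
  unfold F
  rw [← lamR_hom]
  unfold linR
  congr 1 <;> ring

end Pool.Agent.Helper36.S2Cert
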