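import Mathlib
import Pool.Agent.Helper36.S3Data
import Pool.Agent.Helper36.Moment
set_option autoImplicit false

/-! The two-colouring of `S^3`. -/

namespace Pool.Agent.Helper36.S3Cert
open PL MeasureTheory Set Metric SphMeas RealizeSph Moment
open scoped RealInnerProductSpace ENNReal

lemma totR_cons (x y z : ℝ) (v : V) (vs : List V) :
    totR x y z 1 (v :: vs) = ev3 x y z (rowP v vs) + totR x y z 1 vs := by
  rw [totR, ev3_rowP]

lemma totR_nil (x y z : ℝ) : totR x y z 1 [] = 0 := rfl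

lemma tot_affine (x y z : ℝ) :
    ww * totR x y z 1 nodes ≤ -((cc : ℝ) / 2) * (x ^ 2 + y ^ 2 + z ^ 2 + 1 ^ 2) ^ 3 := by
  have h1 : totR x y z 1 nodes = ev3 x y z (sumP [r0, r1, r2, r3, r4] []) := by
    rw [ev3_sumP]
    rw [nodes, totR_cons, totR_cons, totR_cons, totR_cons, totR_cons,
      totR_nil, r0_eq, r1_eq, r2_eq, r3_eq, r4_eq]
    simp only [List.map_cons, List.sum_cons, List.map_nil, List.sum_nil, ev3_nil]
    ring
  have h2 := congrArg (ev3 x y z) rems_eq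
  rw [ev3_sqP, ev3_fma, ev3_rho3, ev3_const, ev3_fma, ev3_const, ← h1, ev3_nil] at h2
  set ρ := x ^ 2 + y ^ 2 + z ^ 2 + 1 ^ 2 with hρ
  have hρ1 : 1 ≤ ρ := by rw [hρ]; nlinarith [sq_nonneg x, sq_nonneg y, sq_nonneg z]
  have hM1 : 1 ≤ √ρ := Real.one_le_sqrt.2 hρ1
  have hMx : |x| ≤ √ρ := Real.abs_le_sqrt (by rw [hρ]; nlinarith [sq_nonneg y, sq_nonneg z])
  have hMy : |y| ≤ √ρ := Real.abs_le_sqrt (by rw [hρ]; nlinarith [sq_nonneg x, sq_nonneg z])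
  have hMz : |z| ≤ √ρ := Real.abs_le_sqrt (by rw [hρ]; nlinarith [sq_nonneg x, sq_nonneg y])
  have h3 := abs_ev3 hM1 hMx hMy hMz 6 rems rems_deg
  have h4 : √ρ ^ 6 = ρ ^ 3 := by
    rw [show (6 : ℕ) = 2 * 3 by norm_num, pow_mul, Real.sq_sqrt (by linarith)]
  rw [h4] at h3
  have h5 : (2 : ℝ) * n3 rems ≤ cc := by exact_mod_cast rems_small
  have h6 : 0 ≤ (ells.map (fun r => (ev3 x y z r) ^ 2)).sum := by
    apply List.sum_nonneg
    intro z hz
    obtain ⟨r, -, rfl⟩ := List.mem_map.1 hz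
    exact sq_nonneg _
  have h7 := (abs_le.1 h3).2
  have h8 : 0 ≤ ρ ^ 3 := by positivity
  have h9 := mul_le_mul_of_nonneg_right h5 h8
  linarith

/-- homogeneous version -/
noncomputable def H (X Y Z W : ℝ) : ℝ :=
  ww * ∑ k : Fin nodes.length, ∑ l : Fin nodes.length, F X Y Z W nodes[k.1] nodes[l.1] +
    (cc : ℝ) / 2 * (X ^ 2 + Y ^ 2 + Z ^ 2 + W ^ 2) ^ 3

lemma H_eq (X Y Z W : ℝ) : H X Y Z W =
    ww * totR X Y Z W nodes + (cc : ℝ) / 2 * (X ^ 2 + Y ^ 2 + Z ^ 2 + W ^ 2) ^ 3 := by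
  unfold H
  congr 2
  rw [totR_eq]
  have h1 : ∀ v, ∑ l : Fin nodes.length, F X Y Z W v nodes[l.1] = (nodes.map (F X Y Z W v)).sum :=
    fun v => Fin.sum_univ_fun_getElem nodes (F X Y Z W v)
  simp_rw [h1]
  exact Fin.sum_univ_fun_getElem nodes (fun v => (nodes.map (F X Y Z W v)).sum)

lemma H_hom (z X Y Z W : ℝ) : H (z * X) (z * Y) (z * Z) (z * W) = z ^ 6 * H X Y Z W := by
  unfold H
  simp_rw [F_hom, ← Finset.mul_sum]
  ring

lemma H_nonpos_of_ne (X Y Z W : ℝ) (hW : W ≠ 0) : H X Y Z W ≤ 0 := by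
  have h1 : H X Y Z W = W ^ 6 * H (X / W) (Y / W) (Z / W) 1 := by
    rw [← H_hom]; congr 1 <;> field_simp
  have h2 := tot_affine (X / W) (Y / W) (Z / W)
  have h3 : H (X / W) (Y / W) (Z / W) 1 ≤ 0 := by rw [H_eq]; linarith
  rw [h1]
  have h4 : 0 ≤ W ^ 6 := by positivity
  exact mul_nonpos_of_nonneg_of_nonpos h4 h3

lemma H_nonpos (X Y Z W : ℝ) : H X Y Z W ≤ 0 := by
  have hcont : Continuous (fun W => H X Y Z W) := by
    unfold H F lamR linR
    fun_prop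
  have hcl : IsClosed {W | H X Y Z W ≤ 0} := isClosed_le hcont continuous_const
  have hsub : ({0}ᶜ : Set ℝ) ⊆ {W | H X Y Z W ≤ 0} := fun W hW => H_nonpos_of_ne X Y Z W hW
  have := hcl.closure_subset_iff.2 hsub
  rw [(dense_compl_singleton (0 : ℝ)).closure_eq] at this
  exact this (mem_univ W)

noncomputable def vec (v : V) : EuclideanSpace ℝ (Fin 4) :=
  !₂[(v.1 : ℝ), (v.2.1 : ℝ), (v.2.2.1 : ℝ), (v.2.2.2 : ℝ)]

lemma inner_vec (n : EuclideanSpace ℝ (Fin 4)) (v : V) :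
    ⟪n, vec v⟫ = linR (n 0) (n 1) (n 2) (n 3) v := by
  simp [vec, linR, PiLp.inner_apply, Fin.sum_univ_four]

lemma vec_vec (u v : V) : ⟪vec u, vec v⟫ = (dot u v : ℝ) := by
  rw [inner_vec]
  simp [vec, linR, dot]
  ring

theorem exists_colouring : ∃ β : ℝ, β < 1 / 4 ∧
    ∃ c : EuclideanSpace ℝ (Fin 4) → Bool, Measurable c ∧
    ∀ n, ‖n‖ = 1 → ∀ i, (sph 4).real {x | c x = i ∧ c (sig n x) = i} ≤ β := by
  obtain ⟨M, hM, hLam⟩ := two_point3 (d := 4) (by norm_num) (sph_sphLike (d := 4) (by norm_num))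
  have hww : (0 : ℝ) < ww := by exact_mod_cast ww_pos
  have hcc : (0 : ℝ) < cc := by exact_mod_cast cc_pos
  refine criterion' (K := Fin nodes.length) (by norm_num) (sph_sphLike (by norm_num)) 3
    (by decide) lamR M hM (fun a b => by rw [hLam]; unfold lamR; ring)
    (fun _ => 1) (fun k => vec nodes[k.1]) ((cc : ℝ) / 2 / ww) (by positivity) ?_
  intro n hn
  have h1 := H_nonpos (n 0) (n 1) (n 2) (n 3)
  have h2 : n 0 ^ 2 + n 1 ^ 2 + n 2 ^ 2 + n 3 ^ 2 = 1 := by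
    have := EuclideanSpace.real_norm_sq_eq n
    rw [hn, Fin.sum_univ_four] at this
    linarith
  unfold H at h1
  rw [h2, one_pow, mul_one] at h1
  have h3 : ∀ k l : Fin nodes.length, (1 : ℝ) * 1 * lamR
      (2 * ⟪n, vec nodes[k.1]⟫ * ⟪n, vec nodes[l.1]⟫ - ⟪vec nodes[k.1], vec nodes[l.1]⟫)
      (‖vec nodes[k.1]‖ ^ 2 * ‖vec nodes[l.1]‖ ^ 2) =
      F (n 0) (n 1) (n 2) (n 3) nodes[k.1] nodes[l.1] := by
    intro k l
    unfold F
    rw [h2, inner_vec, inner_vec, vec_vec, ← real_inner_self_eq_norm_sq,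
      ← real_inner_self_eq_norm_sq, vec_vec, vec_vec]
    ring_nf
  simp_rw [h3]
  rw [← neg_div, le_div_iff₀ hww]
  linarith

end Pool.Agent.Helper36.S3Cert
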