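import Mathlib
import Pool.Agent.Helper36.PolyList
set_option autoImplicit false

/-! Degree-3 ridge functions on `S^3`: the correlation polynomial as a nested list. -/

namespace Pool.Agent.Helper36.S3Cert
open PL

abbrev V := ℤ × ℤ × ℤ × ℤ

def dot (a b : V) : ℤ := a.1 * b.1 + a.2.1 * b.2.1 + a.2.2.1 * b.2.2.1 + a.2.2.2 * b.2.2.2
def lin (a : V) : P3 := [[[a.2.2.2, a.1], [a.2.1]], [[a.2.2.1]]]
def lin2 (a : V) : P3 := [[[2 * a.2.2.2, 2 * a.1], [2 * a.2.1]], [[2 * a.2.2.1]]]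
def rho : P3 := [[[1, 0, 1], [], [1]], [], [[1]]]
def rho2 : P3 := fma3 rho rho []
def rho3 : P3 := fma3 rho rho2 []

/-- `acc + m * Λ(T, s ρ²)` -/
def Lam (m : ℤ) (v u : V) (acc : P3) : P3 :=
  let T := fma3 (lin2 v) (lin u) (fma3 [[[-(dot v u)]]] rho [])
  let s := dot v v * dot u u
  let C := fma3 (fma3 [[[2]]] T []) T (fma3 [[[3 * s]]] rho2 [])
  fma3 (fma3 [[[m]]] T []) C acc

def row (v : V) : List V → P3 → P3
  | [], acc => acc
  | u :: us, acc => row v us (Lam 2 v u acc)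

def rowP (v : V) (us : List V) : P3 := row v us (Lam 1 v v [])

def sumP : List P3 → P3 → P3
  | [], acc => acc
  | r :: rs, acc => sumP rs (fma3 [[[1]]] r acc)

def sqP : List P3 → P3 → P3
  | [], acc => acc
  | r :: rs, acc => sqP rs (fma3 r r acc)

/-! real semantics -/

noncomputable def lamR (T s : ℝ) : ℝ := 2 * T ^ 3 + 3 * T * s

noncomputable def linR (X Y Z W : ℝ) (a : V) : ℝ :=
  a.1 * X + a.2.1 * Y + a.2.2.1 * Z + a.2.2.2 * W

noncomputable def F (X Y Z W : ℝ) (v u : V) : ℝ :=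
  lamR (2 * linR X Y Z W v * linR X Y Z W u - dot v u * (X ^ 2 + Y ^ 2 + Z ^ 2 + W ^ 2))
    ((dot v v : ℝ) * dot u u * (X ^ 2 + Y ^ 2 + Z ^ 2 + W ^ 2) ^ 2)

lemma dot_comm (v u : V) : dot v u = dot u v := by unfold dot; ring

lemma F_symm (X Y Z W : ℝ) (v u : V) : F X Y Z W v u = F X Y Z W u v := by
  unfold F
  rw [dot_comm v u, mul_right_comm 2, mul_comm (dot v v : ℝ)]

lemma ev3_lin (x y z : ℝ) (a : V) : ev3 x y z (lin a) = linR x y z 1 a := by
  simp [lin, linR]; ring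

lemma ev3_lin2 (x y z : ℝ) (a : V) : ev3 x y z (lin2 a) = 2 * linR x y z 1 a := by
  simp [lin2, linR]; ring

lemma ev3_const (x y z : ℝ) (m : ℤ) : ev3 x y z [[[m]]] = m := by simp

lemma ev3_rho (x y z : ℝ) : ev3 x y z rho = x ^ 2 + y ^ 2 + z ^ 2 + 1 ^ 2 := by
  simp [rho]; ring

lemma ev3_rho2 (x y z : ℝ) : ev3 x y z rho2 = (x ^ 2 + y ^ 2 + z ^ 2 + 1 ^ 2) ^ 2 := by
  rw [rho2, ev3_fma, ev3_rho, ev3_nil]; ring

lemma ev3_rho3 (x y z : ℝ) : ev3 x y z rho3 = (x ^ 2 + y ^ 2 + z ^ 2 + 1 ^ 2) ^ 3 := by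
  rw [rho3, ev3_fma, ev3_rho, ev3_rho2, ev3_nil]; ring

lemma ev3_Lam (x y z : ℝ) (m : ℤ) (v u : V) (acc : P3) :
    ev3 x y z (Lam m v u acc) = m * F x y z 1 v u + ev3 x y z acc := by
  unfold Lam F lamR
  simp only [ev3_fma, ev3_const, ev3_lin, ev3_lin2, ev3_rho, ev3_rho2, ev3_nil]
  push_cast
  ring

lemma ev3_row (x y z : ℝ) (v : V) : ∀ (us : List V) (acc : P3),
    ev3 x y z (row v us acc) = 2 * (us.map (F x y z 1 v)).sum + ev3 x y z acc
  | [], acc => by simp [row]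
  | u :: us, acc => by
    rw [row, ev3_row x y z v us, ev3_Lam]
    simp only [List.map_cons, List.sum_cons]
    push_cast; ring

lemma ev3_rowP (x y z : ℝ) (v : V) (us : List V) :
    ev3 x y z (rowP v us) = F x y z 1 v v + 2 * (us.map (F x y z 1 v)).sum := by
  rw [rowP, ev3_row, ev3_Lam]
  simp only [ev3_nil]
  push_cast; ring

lemma ev3_sumP (x y z : ℝ) : ∀ (rs : List P3) (acc : P3),
    ev3 x y z (sumP rs acc) = (rs.map (ev3 x y z)).sum + ev3 x y z acc
  | [], acc => by simp [sumP]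
  | r :: rs, acc => by
    rw [sumP, ev3_sumP x y z rs, ev3_fma, ev3_const]
    simp only [List.map_cons, List.sum_cons]
    push_cast; ring

lemma ev3_sqP (x y z : ℝ) : ∀ (rs : List P3) (acc : P3),
    ev3 x y z (sqP rs acc) = (rs.map (fun r => (ev3 x y z r) ^ 2)).sum + ev3 x y z acc
  | [], acc => by simp [sqP]
  | r :: rs, acc => by
    rw [sqP, ev3_sqP x y z rs, ev3_fma]
    simp only [List.map_cons, List.sum_cons]
    ring

noncomputable def totR (X Y Z W : ℝ) : List V → ℝ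
  | [] => 0
  | v :: vs => F X Y Z W v v + 2 * (vs.map (F X Y Z W v)).sum + totR X Y Z W vs

lemma totR_eq (X Y Z W : ℝ) : ∀ l : List V,
    totR X Y Z W l = (l.map fun v => (l.map (F X Y Z W v)).sum).sum
  | [] => by simp [totR]
  | v :: vs => by
    rw [totR, totR_eq X Y Z W vs]
    simp only [List.map_cons, List.sum_cons]
    have h1 : (vs.map fun w => F X Y Z W w v + (vs.map (F X Y Z W w)).sum).sum =
        (vs.map (F X Y Z W v)).sum + (vs.map fun w => (vs.map (F X Y Z W w)).sum).sum := by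
      rw [List.sum_map_add]
      congr 2
      exact List.map_congr_left fun w _ => F_symm X Y Z W w v
    rw [h1]; ring

lemma lamR_hom (z T s : ℝ) : lamR (z ^ 2 * T) (z ^ 4 * s) = z ^ 6 * lamR T s := by
  unfold lamR; ring

lemma F_hom (z X Y Z W : ℝ) (v u : V) :
    F (z * X) (z * Y) (z * Z) (z * W) v u = z ^ 6 * F X Y Z W v u := by
  unfold F
  rw [← lamR_hom]
  unfold linR
  congr 1 <;> ring

end Pool.Agent.Helper36.S3Cert
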